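import Pool.Agent.N969.P15.Defs

/-!
# `X_0(15)`: the character sum over the cusps for a given matrix (`S_C1B`)
-/

set_option autoImplicit false

namespace Pool.Agent.Run7.h135.P15

open Finset Pool.Agent.N969.P15

/-- the Jacobi symbol for a squarefree modulus -/
theorem jac_prod (a : ℤ) (s : Finset ℕ) (hs : ∀ p ∈ s, p ≠ 0) :
    jacobiSym a (∏ p ∈ s, p) = ∏ p ∈ s, jacobiSym a p := by
  classical
  induction s using Finset.induction_on with
  | empty => simp
  | insert p s hp ih =>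
    rw [prod_insert hp, prod_insert hp]
    have h1 : p ≠ 0 := hs p (mem_insert_self _ _)
    have h2 : ∏ p ∈ s, p ≠ 0 := by
      rw [prod_ne_zero_iff]
      intro q hq
      exact hs q (mem_insert_of_mem hq)
    rw [jacobiSym.mul_right' a h1 h2, ih (fun q hq => hs q (mem_insert_of_mem hq))]

theorem jac_sqf (a : ℤ) {n : ℕ} (hn : Squarefree n) :
    jacobiSym a n = ∏ p ∈ n.primeFactors, jacobiSym a p := by
  conv_lhs => rw [← Nat.prod_primeFactors_of_squarefree hn]
  exact jac_prod a _ fun p hp => (Nat.prime_of_mem_primeFactors hp).ne_zero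

theorem jac_ne {p : ℕ} (hp : p.Prime) {a : ℤ} : jacobiSym a p ≠ 0 ↔ ¬ (p : ℤ) ∣ a := by
  rw [Ne, jacobiSym.eq_zero_iff, not_and_or, not_not, not_not]
  constructor
  · rintro (h | h)
    · exact absurd h hp.ne_zero
    · rw [← Int.isCoprime_iff_gcd_eq_one, isCoprime_comm,
        (Nat.prime_iff_prime_int.mp hp).irreducible.coprime_iff_not_dvd] at h
      exact h
  · intro h
    right
    rw [← Int.isCoprime_iff_gcd_eq_one, isCoprime_comm,
      (Nat.prime_iff_prime_int.mp hp).irreducible.coprime_iff_not_dvd]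
    exact h

/-- the local condition at `p` -/
def Lc (p a a' Y X u : ℕ) : Prop := (p : ℤ) ∣ (a : ℤ) * u + X ∧ (p : ℤ) ∣ (a' : ℤ) * u - Y

theorem jac_congr {p : ℕ} {a b : ℤ} (h : (p : ℤ) ∣ a - b) : jacobiSym a p = jacobiSym b p := by
  apply jacobiSym.mod_left'
  exact Int.modEq_iff_dvd.mpr (by
    have := (dvd_neg (α := ℤ)).mpr h
    rwa [neg_sub] at this)

theorem jac_sq_mul {p : ℕ} (hp : p.Prime) {a u : ℤ} (ha : ¬ (p : ℤ) ∣ a) :
    jacobiSym (a * (a * u)) p = jacobiSym u p := by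
  rw [jacobiSym.mul_left, jacobiSym.mul_left, ← mul_assoc]
  have h := (jac_ne hp).mpr ha
  rcases jacobiSym.trichotomy a p with h1 | h1 | h1
  · exact absurd h1 h
  · rw [h1]; ring
  · rw [h1]; ring

theorem no_four {p a a' Y X : ℕ} (hN : ¬ p ^ 2 ∣ a * Y + a' * X) (h1 : p ∣ a) (h2 : p ∣ X)
    (h3 : p ∣ a') (h4 : p ∣ Y) : False := by
  apply hN
  rw [pow_two]
  exact dvd_add (mul_dvd_mul h1 h4) (mul_dvd_mul h3 h2)

theorem loc_val {p a a' Y X u : ℕ} (hp : p.Prime) (hN : ¬ p ^ 2 ∣ a * Y + a' * X)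
    (hu : ¬ p ∣ u) (h : Lc p a a' Y X u) : jacobiSym u p = psp p a a' Y X := by
  obtain ⟨h1, h2⟩ := h
  have hpi := Nat.prime_iff_prime_int.mp hp
  have hu' : ¬ (p : ℤ) ∣ (u : ℤ) := by exact_mod_cast hu
  rw [psp]
  split_ifs with hc
  · obtain ⟨c1, c2⟩ := hc
    have ha' : ¬ (p : ℤ) ∣ (a' : ℤ) := by
      intro h3
      have h4 : (p : ℤ) ∣ (Y : ℤ) := by
        have := dvd_sub (Dvd.dvd.mul_right h3 (u : ℤ)) h2
        simpa using this
      exact no_four hN c1 c2 (by exact_mod_cast h3) (by exact_mod_cast h4)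
    rw [← jac_sq_mul hp ha' (u := (u : ℤ))]
    apply jac_congr
    have : (a' : ℤ) * (a' * u) - ((a' * Y : ℕ) : ℤ) = a' * (a' * u - Y) := by push_cast; ring
    rw [this]
    exact Dvd.dvd.mul_left h2 _
  · have ha : ¬ (p : ℤ) ∣ (a : ℤ) := by
      intro h3
      apply hc
      refine ⟨by exact_mod_cast h3, ?_⟩
      have : (p : ℤ) ∣ (X : ℤ) := by
        have := dvd_sub h1 (Dvd.dvd.mul_right h3 (u : ℤ))
        simpa using this
      exact_mod_cast this
    rw [← jac_sq_mul hp ha (u := (u : ℤ))]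
    apply jac_congr
    have : (a : ℤ) * (a * u) - (-((a * X : ℕ) : ℤ)) = a * (a * u + X) := by push_cast; ring
    rw [this]
    exact Dvd.dvd.mul_left h1 _

/-- inverses modulo `p` -/
theorem exists_inv {p : ℕ} (hp : p.Prime) {a : ℤ} (ha : ¬ (p : ℤ) ∣ a) :
    ∃ b : ℤ, (p : ℤ) ∣ a * b - 1 := by
  have := ((Nat.prime_iff_prime_int.mp hp).irreducible.coprime_iff_not_dvd (n := a)).mpr ha
  obtain ⟨x, y, hxy⟩ := this
  exact ⟨y, -x, by linear_combination hxy⟩

theorem loc_ex {p a a' Y X : ℕ} (hp : p.Prime) (hd : p ∣ a * Y + a' * X)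
    (h0 : psp p a a' Y X ≠ 0) : ∃ u : ℕ, ¬ p ∣ u ∧ Lc p a a' Y X u := by
  have hpi := Nat.prime_iff_prime_int.mp hp
  have hd' : (p : ℤ) ∣ (a : ℤ) * Y + a' * X := by exact_mod_cast hd
  rw [psp] at h0
  have key : ∀ w : ℤ, ¬ (p : ℤ) ∣ w → (p : ℤ) ∣ (a : ℤ) * w + X → (p : ℤ) ∣ (a' : ℤ) * w - Y →
      ∃ u : ℕ, ¬ p ∣ u ∧ Lc p a a' Y X u := by
    intro w hw h1 h2
    have hp0 : (p : ℤ) ≠ 0 := by exact_mod_cast hp.ne_zero
    refine ⟨(w % p).toNat, ?_, ?_⟩
    · intro h
      apply hw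
      have h3 : ((w % p).toNat : ℤ) = w % p := Int.toNat_of_nonneg (Int.emod_nonneg w hp0)
      have h4 : (p : ℤ) ∣ w % p := by
        rw [← h3]
        exact_mod_cast h
      exact (Int.dvd_iff_dvd_of_dvd_sub (Int.dvd_self_sub_emod)).mpr h4
    · have h3 : ((w % p).toNat : ℤ) = w % p := Int.toNat_of_nonneg (Int.emod_nonneg w hp0)
      have h4 : (p : ℤ) ∣ w - w % p := Int.dvd_self_sub_emod
      refine ⟨?_, ?_⟩
      · rw [h3]
        have : (a : ℤ) * (w % p) + X = ((a : ℤ) * w + X) - a * (w - w % p) := by ring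
        rw [this]
        exact dvd_sub h1 (Dvd.dvd.mul_left h4 _)
      · rw [h3]
        have : (a' : ℤ) * (w % p) - Y = ((a' : ℤ) * w - Y) - a' * (w - w % p) := by ring
        rw [this]
        exact dvd_sub h2 (Dvd.dvd.mul_left h4 _)
  split_ifs at h0 with hc
  · rw [jac_ne hp] at h0
    push_cast at h0
    rw [hpi.dvd_mul, not_or] at h0
    obtain ⟨b, hb⟩ := exists_inv hp h0.1
    have c1 : (p : ℤ) ∣ (a : ℤ) := by exact_mod_cast hc.1
    have c2 : (p : ℤ) ∣ (X : ℤ) := by exact_mod_cast hc.2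
    refine key (b * Y) ?_ ?_ ?_
    · intro h
      rcases hpi.dvd_or_dvd h with h | h
      · have := dvd_sub (Dvd.dvd.mul_left h (a' : ℤ)) hb
        rw [sub_sub_cancel] at this
        exact hpi.not_dvd_one this
      · exact h0.2 h
    · exact dvd_add (Dvd.dvd.mul_right c1 _) c2
    · have : (a' : ℤ) * (b * Y) - Y = (a' * b - 1) * Y := by ring
      rw [this]
      exact Dvd.dvd.mul_right hb _
  · rw [jac_ne hp, dvd_neg] at h0
    push_cast at h0
    rw [hpi.dvd_mul, not_or] at h0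
    obtain ⟨b, hb⟩ := exists_inv hp h0.1
    have e1 : (p : ℤ) ∣ (a : ℤ) * (-(b * X)) + X := by
      have : (a : ℤ) * (-(b * X)) + X = -((a * b - 1) * X) := by ring
      rw [this, dvd_neg]
      exact Dvd.dvd.mul_right hb _
    refine key (-(b * X)) ?_ e1 ?_
    · rw [dvd_neg]
      intro h
      rcases hpi.dvd_or_dvd h with h | h
      · have := dvd_sub (Dvd.dvd.mul_left h (a : ℤ)) hb
        rw [sub_sub_cancel] at this
        exact hpi.not_dvd_one this
      · exact h0.2 h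
    · have h5 : (p : ℤ) ∣ (a : ℤ) * ((a' : ℤ) * (-(b * X)) - Y) := by
        have : (a : ℤ) * ((a' : ℤ) * (-(b * X)) - Y) =
            a' * ((a : ℤ) * (-(b * X)) + X) - (a * Y + a' * X) := by ring
        rw [this]
        exact dvd_sub (Dvd.dvd.mul_left e1 _) hd'
      exact (hpi.dvd_or_dvd h5).resolve_left h0.1

theorem loc_uniq {p a a' Y X u v : ℕ} (hp : p.Prime) (hN : ¬ p ^ 2 ∣ a * Y + a' * X)
    (hu : Lc p a a' Y X u) (hv : Lc p a a' Y X v) : u ≡ v [MOD p] := by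
  have hpi := Nat.prime_iff_prime_int.mp hp
  rw [Nat.modEq_iff_dvd]
  have h1 : (p : ℤ) ∣ (a : ℤ) * ((v : ℤ) - u) := by
    have := dvd_sub hv.1 hu.1
    have e : (a : ℤ) * ((v : ℤ) - u) = (a : ℤ) * v + X - ((a : ℤ) * u + X) := by ring
    rwa [e]
  have h2 : (p : ℤ) ∣ (a' : ℤ) * ((v : ℤ) - u) := by
    have := dvd_sub hv.2 hu.2
    have e : (a' : ℤ) * ((v : ℤ) - u) = (a' : ℤ) * v - Y - ((a' : ℤ) * u - Y) := by ring
    rwa [e]
  rcases hpi.dvd_or_dvd h1 with h1 | h1
  · rcases hpi.dvd_or_dvd h2 with h2 | h2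
    · exfalso
      have h3 : (p : ℤ) ∣ (X : ℤ) := by
        have := dvd_sub hu.1 (Dvd.dvd.mul_right h1 (u : ℤ))
        simpa using this
      have h4 : (p : ℤ) ∣ (Y : ℤ) := by
        have := dvd_sub (Dvd.dvd.mul_right h2 (u : ℤ)) hu.2
        simpa using this
      exact no_four hN (by exact_mod_cast h1) (by exact_mod_cast h3) (by exact_mod_cast h2)
        (by exact_mod_cast h4)
    · exact h2
  · exact h1

/-- divisibility by a squarefree number -/
theorem sqf_dvd {n : ℕ} (hn : Squarefree n) {x : ℤ} (h : ∀ p ∈ n.primeFactors, (p : ℤ) ∣ x) :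
    (n : ℤ) ∣ x := by
  rw [Int.natCast_dvd, ← Nat.prod_primeFactors_of_squarefree hn]
  apply Finset.prod_primes_dvd
  · intro p hp
    exact (Nat.prime_of_mem_primeFactors hp).prime
  · intro p hp
    exact Int.natCast_dvd.mp (h p hp)

theorem c1b : S_C1B := by
  intro n hn h4 N hN a a' X Y hNe
  have hn0 : n ≠ 0 := by rintro rfl; omega
  have hdiv : n ∣ a * Y + a' * X := by
    rw [hNe]
    rcases hN with rfl | rfl
    · exact dvd_refl _
    · exact Dvd.intro_left 2 rfl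
  have hsq : ∀ p ∈ n.primeFactors, ¬ p ^ 2 ∣ a * Y + a' * X := by
    intro p hp h
    have hpp := Nat.prime_of_mem_primeFactors hp
    have hpn := Nat.dvd_of_mem_primeFactors hp
    have hp2 : p ≠ 2 := by
      rintro rfl
      omega
    have h1 : p ^ 2 ∣ 2 * n := by
      rw [hNe] at h
      rcases hN with rfl | rfl
      · exact Dvd.dvd.mul_left h 2
      · exact h
    have h2 : p ^ 2 ∣ n := by
      refine Nat.Coprime.dvd_of_dvd_mul_left (k := p ^ 2) (m := 2) (n := n) ?_ h1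
      apply Nat.Coprime.pow_left
      exact (Nat.coprime_primes hpp Nat.prime_two).mpr hp2
    rw [pow_two] at h2
    have := hn p h2
    exact hpp.one_lt.ne' (Nat.isUnit_iff.mp this)
  have hmem : ∀ u : ℕ, u ∈ (un n).filter (fun u : ℕ => (n : ℤ) ∣ (a : ℤ) * (u : ℤ) + (X : ℤ) ∧
      (n : ℤ) ∣ (a' : ℤ) * (u : ℤ) - (Y : ℤ)) ↔
      u < n ∧ ∀ p ∈ n.primeFactors, ¬ p ∣ u ∧ Lc p a a' Y X u := by
    intro u
    rw [mem_filter, un, mem_filter, mem_range]
    constructor
    · rintro ⟨⟨h1, h2⟩, h3, h5⟩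
      refine ⟨h1, fun p hp => ⟨?_, ?_, ?_⟩⟩
      · intro h
        have hpp := Nat.prime_of_mem_primeFactors hp
        have h6 : p ∣ Nat.gcd u n := Nat.dvd_gcd h (Nat.dvd_of_mem_primeFactors hp)
        rw [Nat.Coprime] at h2
        rw [h2] at h6
        exact hpp.one_lt.ne' (Nat.dvd_one.mp h6)
      · exact dvd_trans (by exact_mod_cast Nat.dvd_of_mem_primeFactors hp) h3
      · exact dvd_trans (by exact_mod_cast Nat.dvd_of_mem_primeFactors hp) h5
    · rintro ⟨h1, h2⟩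
      refine ⟨⟨h1, ?_⟩, sqf_dvd hn fun p hp => (h2 p hp).2.1, sqf_dvd hn fun p hp => (h2 p hp).2.2⟩
      apply Nat.Coprime.symm
      rw [Nat.coprime_iff_gcd_eq_one]
      by_contra hg
      obtain ⟨q, hq, hq2⟩ := Nat.exists_prime_and_dvd hg
      exact (h2 q (Nat.mem_primeFactors.mpr ⟨hq, hq2.trans (Nat.gcd_dvd_left _ _), hn0⟩)).1
        (hq2.trans (Nat.gcd_dvd_right _ _))
  by_cases h0 : ∀ p ∈ n.primeFactors, psp p a a' Y X ≠ 0
  · have hch : ∀ p, ∃ u : ℕ, p ∈ n.primeFactors → ¬ p ∣ u ∧ Lc p a a' Y X u := by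
      intro p
      by_cases hp : p ∈ n.primeFactors
      · obtain ⟨u, hu⟩ := loc_ex (Nat.prime_of_mem_primeFactors hp)
          ((Nat.dvd_of_mem_primeFactors hp).trans hdiv) (h0 p hp)
        exact ⟨u, fun _ => hu⟩
      · exact ⟨0, fun h => absurd h hp⟩
    choose f hf using hch
    have hco : Set.Pairwise (n.primeFactors : Set ℕ) (Function.onFun Nat.Coprime (fun p : ℕ => p)) := by
      intro p hp q hq hpq
      exact (Nat.coprime_primes (Nat.prime_of_mem_primeFactors hp)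
        (Nat.prime_of_mem_primeFactors hq)).mpr hpq
    obtain ⟨k, hk⟩ := Nat.chineseRemainderOfFinset f (fun p : ℕ => p) n.primeFactors
      (fun p hp => (Nat.prime_of_mem_primeFactors hp).ne_zero) hco
    have hk2 : ∀ p ∈ n.primeFactors, k % n ≡ f p [MOD p] := by
      intro p hp
      exact ((Nat.mod_modEq k n).of_dvd (Nat.dvd_of_mem_primeFactors hp)).trans (hk p hp)
    have hLc : ∀ p ∈ n.primeFactors, ∀ u v : ℕ, u ≡ v [MOD p] → (¬ p ∣ v ∧ Lc p a a' Y X v) →
        (¬ p ∣ u ∧ Lc p a a' Y X u) := by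
      intro p hp u v huv hv
      have h6 := (Nat.modEq_iff_dvd.mp huv)
      refine ⟨?_, ?_, ?_⟩
      · intro h
        apply hv.1
        exact (Nat.modEq_zero_iff_dvd.mp (huv.symm.trans (Nat.modEq_zero_iff_dvd.mpr h)))
      · have : (a : ℤ) * u + X = ((a : ℤ) * v + X) - a * (v - u) := by ring
        rw [this]
        exact dvd_sub hv.2.1 (Dvd.dvd.mul_left h6 _)
      · have : (a' : ℤ) * u - Y = ((a' : ℤ) * v - Y) - a' * (v - u) := by ring
        rw [this]
        exact dvd_sub hv.2.2 (Dvd.dvd.mul_left h6 _)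
    have hgood : ∀ p ∈ n.primeFactors, ¬ p ∣ k % n ∧ Lc p a a' Y X (k % n) := fun p hp =>
      hLc p hp _ _ (hk2 p hp) (hf p hp)
    have hset : (un n).filter (fun u : ℕ => (n : ℤ) ∣ (a : ℤ) * (u : ℤ) + (X : ℤ) ∧
      (n : ℤ) ∣ (a' : ℤ) * (u : ℤ) - (Y : ℤ)) = {k % n} := by
      ext u
      rw [hmem, mem_singleton]
      constructor
      · rintro ⟨h1, h2⟩
        have h3 : (n : ℤ) ∣ (u : ℤ) - ((k % n : ℕ) : ℤ) := by
          apply sqf_dvd hn
          intro p hp
          exact (Nat.modEq_iff_dvd.mp (loc_uniq (Nat.prime_of_mem_primeFactors hp) (hsq p hp)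
            (hgood p hp).2 (h2 p hp).2))
        have h5 := (Nat.modEq_iff_dvd.mpr h3)
        have h6 : k % n % n = u % n := h5
        rw [Nat.mod_mod, Nat.mod_eq_of_lt h1] at h6
        exact h6.symm
      · rintro rfl
        exact ⟨Nat.mod_lt _ (Nat.pos_of_ne_zero hn0), hgood⟩
    rw [hset, sum_singleton, jac_sqf _ hn]
    exact prod_congr rfl fun p hp => loc_val (Nat.prime_of_mem_primeFactors hp) (hsq p hp)
      (hgood p hp).1 (hgood p hp).2
  · push Not at h0
    obtain ⟨p, hp, hp0⟩ := h0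
    rw [prod_eq_zero hp hp0]
    apply sum_eq_zero
    intro u hu
    exfalso
    rw [hmem] at hu
    have h1 := loc_val (Nat.prime_of_mem_primeFactors hp) (hsq p hp) (hu.2 p hp).1 (hu.2 p hp).2
    rw [hp0] at h1
    exact (jac_ne (Nat.prime_of_mem_primeFactors hp)).mpr (by
      intro h
      exact (hu.2 p hp).1 (by exact_mod_cast h)) h1

end Pool.Agent.Run7.h135.P15
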