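import Pool.Agent.Run7.h135.P15.Asm
import Pool.Agent.Run7.h135.P15.C1A
import Pool.Agent.Run7.h135.P15.C1B
import Pool.Agent.Run7.h238.P.CP3
import Pool.Agent.Run7.h483.P15.HE
import Pool.Agent.Run7.h483.P15.REL
import Pool.Agent.Run7.h483.P15.C2

/-!
# `X_0(15)`: the bilinear identities and the diagonal identity, unconditional
-/

set_option autoImplicit false

namespace Pool.Agent.Run7.h135.P15

open Pool.Agent.N969.P15

theorem t_BIL1 : S_BIL1 := bil1 Run7.h238.P.t_CP3 Pool.Agent.Run7.h483.P15.t_REL22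

theorem t_BIL2 : S_BIL2 := bil2 Run7.h238.P.t_CP3 Pool.Agent.Run7.h483.P15.t_REL22

/-- DIAG -/
theorem t_DIAG : S_DIAG := diag c1a c1b Pool.Agent.Run7.h483.P15.t_C2A
  Pool.Agent.Run7.h483.P15.t_C2B t_BIL1 t_BIL2 Pool.Agent.Run7.h483.P15.t_HE

end Pool.Agent.Run7.h135.P15
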