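import Pool.Agent.Run7.h135.P15.RStm
import Pool.Agent.N916.GB.Tr

/-!
# `X_0(15)`: the ambiguous conditions and the absence of classes of order four (`S_T7`)
-/

set_option autoImplicit false

namespace Pool.Agent.Run7.h135.P15

open Finset Pool.Agent.N969.P15
open Pool.Agent.Y703.CQ (nr)
open Pool.Agent.N916.GB (Gv Gv_iff_rank Lm Lm_mulVec Ev Qc_iff z2 z2_add_self nr_recip sum_uu Po)
open Pool.Agent.N973.ND (uu)

open scoped Classical

noncomputable section

/-- the right side -/
def e5 (q : ℕ) : ZMod 2 := if jacobiSym (-5) q = 1 then 0 else 1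

theorem cond_iff {q : ℕ} (hq : q.Prime) (hq2 : q ≠ 2) (hq5 : q ≠ 5) (s : Finset ℕ)
    (hs : ∀ p ∈ s, p.Prime ∧ p ≠ q) :
    jacobiSym (-5 * ((∏ p ∈ s, p : ℕ) : ℤ)) q = 1 ↔ e5 q + ∑ p ∈ s, nr q p = 0 := by
  rw [jacobiSym.mul_left, Pool.Agent.N916.GB.jac_prod hq hq2 s hs, e5]
  have h5 : jacobiSym (-5) q ≠ 0 := by
    rw [Ne, jacobiSym.eq_zero_iff, not_and_or, not_not, not_not]
    right
    have : Int.gcd (-5) q = Nat.gcd 5 q := rfl
    rw [this]
    exact (Nat.coprime_primes Nat.prime_five hq).mpr (Ne.symm hq5)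
  have h6 : jacobiSym (-5) q = 1 ∨ jacobiSym (-5) q = -1 :=
    (jacobiSym.trichotomy _ _).resolve_left h5
  rcases h6 with h6 | h6 <;> rcases z2 (∑ p ∈ s, nr q p) with h7 | h7 <;> rw [h6, h7]
  · simp
  · simp
  · simp
  · simp
    decide

section la

variable {V : Type} [Fintype V]

theorem la [Nonempty V] (N : V → V → ZMod 2) (e : V → ZMod 2) (he : ∑ q, e q = 0)
    (hN : ∀ x, ∑ q, Ev N x q = 0) :
    Odd ((univ.filter fun x : V → ZMod 2 => ∀ q, Ev N x q = e q).card / 2) ↔ Gv N := by
  set f := (Lm N).mulVecLin with hf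
  have hfx : ∀ x q, f x q = Ev N x q := by
    intro x q
    rw [hf, Matrix.mulVecLin_apply, Lm_mulVec]
  set r := Module.finrank (ZMod 2) (LinearMap.ker f) with hr
  have hrk : (Lm N).rank + r = Fintype.card V := by
    have h2 := LinearMap.finrank_range_add_finrank_ker f
    rw [Module.finrank_fintype_fun_eq_card] at h2
    exact h2
  have hGv : Gv N ↔ r = 1 := by
    rw [Gv_iff_rank]
    omega
  have h1 : (fun _ => (1 : ZMod 2)) ∈ LinearMap.ker f := by
    rw [LinearMap.mem_ker]
    funext q
    rw [hfx]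
    exact Pool.Agent.N916.GB.Ev_const N 1 q
  have hne : (⟨_, h1⟩ : LinearMap.ker f) ≠ 0 := by
    intro h
    have h4 := congrArg Subtype.val h
    have h5 := congrFun h4 (Classical.arbitrary V)
    exact one_ne_zero h5
  have hr1 : 1 ≤ r := by
    have : 0 < Module.finrank (ZMod 2) (LinearMap.ker f) := by
      rw [Module.finrank_pos_iff]
      exact ⟨⟨_, _, hne⟩⟩
    omega
  -- the number of solutions
  have hcard : ∀ x0 : V → ZMod 2, (∀ q, Ev N x0 q = e q) →
      (univ.filter fun x : V → ZMod 2 => ∀ q, Ev N x q = e q).card = 2 ^ r := by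
    intro x0 hx0
    have hk : Fintype.card (LinearMap.ker f) = 2 ^ r := by
      have := Module.card_eq_pow_finrank (K := ZMod 2) (V := LinearMap.ker f)
      rw [ZMod.card] at this
      exact this
    rw [← hk, ← Fintype.card_coe]
    refine Fintype.card_congr ⟨fun x => ⟨x.1 - x0, ?_⟩, fun y => ⟨y.1 + x0, ?_⟩, ?_, ?_⟩
    · have h2 := (mem_filter.mp x.2).2
      rw [LinearMap.mem_ker, map_sub]
      funext q
      rw [Pi.sub_apply, hfx, hfx, h2 q, hx0 q, sub_self]
      rfl
    · rw [mem_filter]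
      refine ⟨mem_univ _, fun q => ?_⟩
      have h2 := y.2
      rw [LinearMap.mem_ker] at h2
      rw [← hfx, map_add, h2, Pi.add_apply, hfx, hx0]
      simp
    · intro x
      simp
    · intro y
      simp
  constructor
  · intro hodd
    rw [hGv]
    by_cases hex : ∃ x0 : V → ZMod 2, ∀ q, Ev N x0 q = e q
    · obtain ⟨x0, hx0⟩ := hex
      rw [hcard x0 hx0] at hodd
      by_contra hr2
      obtain ⟨k, hk⟩ : ∃ k, r = k + 2 := ⟨r - 2, by omega⟩
      rw [hk, pow_add] at hodd
      have : 2 ^ k * 2 ^ 2 / 2 = 2 * 2 ^ k := by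
        have : 2 ^ k * 2 ^ 2 = 2 * (2 * 2 ^ k) := by ring
        rw [this, Nat.mul_div_cancel_left _ two_pos]
      rw [this] at hodd
      exact (Nat.not_even_iff_odd.mpr hodd) (even_two_mul _)
    · exfalso
      have : (univ.filter fun x : V → ZMod 2 => ∀ q, Ev N x q = e q) = ∅ := by
        rw [filter_eq_empty_iff]
        intro x _ hx
        exact hex ⟨x, hx⟩
      rw [this] at hodd
      simp at hodd
  · intro hG
    have hr' := hGv.mp hG
    -- the range is the kernel of the sum
    let l : (V → ZMod 2) →ₗ[ZMod 2] ZMod 2 := ∑ i, LinearMap.proj i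
    have hl : ∀ x, l x = ∑ i, x i := by
      intro x
      simp only [l, LinearMap.sum_apply, LinearMap.proj_apply]
    have hle : LinearMap.range f ≤ LinearMap.ker l := by
      rintro _ ⟨x, rfl⟩
      rw [LinearMap.mem_ker, hl]
      rw [← hN x]
      exact sum_congr rfl fun q _ => hfx x q
    have hsurj : Function.Surjective l := by
      intro c
      refine ⟨fun i => if i = Classical.arbitrary V then c else 0, ?_⟩
      rw [hl, sum_ite_eq' univ, if_pos (mem_univ _)]
    have hfk : Module.finrank (ZMod 2) (LinearMap.ker l) + 1 = Fintype.card V := by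
      have h2 := LinearMap.finrank_range_add_finrank_ker l
      rw [Module.finrank_fintype_fun_eq_card, LinearMap.range_eq_top.mpr hsurj, finrank_top,
        Module.finrank_self] at h2
      omega
    have heq : LinearMap.range f = LinearMap.ker l := by
      apply Submodule.eq_of_le_of_finrank_eq hle
      have : Module.finrank (ZMod 2) (LinearMap.range f) = (Lm N).rank := rfl
      omega
    have hemem : e ∈ LinearMap.range f := by
      rw [heq, LinearMap.mem_ker, hl, he]
    obtain ⟨x0, hx0⟩ := hemem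
    rw [hcard x0 (fun q => by rw [← hfx, hx0]), hr']
    decide

end la

/-- the primes of a vector -/
def Bx {n : ℕ} (x : n.primeFactors → ZMod 2) : Finset ℕ :=
  n.primeFactors.filter fun p => ∃ h : p ∈ n.primeFactors, x ⟨p, h⟩ = 1

theorem mem_Bx {n : ℕ} (x : n.primeFactors → ZMod 2) (p : n.primeFactors) :
    (p : ℕ) ∈ Bx x ↔ x p = 1 := by
  rw [Bx, mem_filter]
  exact ⟨fun h => h.2.choose_spec, fun h => ⟨p.2, p.2, h⟩⟩

theorem Bx_sub {n : ℕ} (x : n.primeFactors → ZMod 2) : Bx x ⊆ n.primeFactors :=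
  filter_subset _ _

theorem prod_Bx {n : ℕ} (hn : Squarefree n) (x : n.primeFactors → ZMod 2) :
    (∏ p ∈ Bx x, p) * ∏ p ∈ n.primeFactors \ Bx x, p = n := by
  rw [mul_comm, prod_sdiff (Bx_sub x)]
  exact Nat.prod_primeFactors_of_squarefree hn

theorem Sl_iff {n : ℕ} (hodd : n % 2 = 1) (h5 : ¬ 5 ∣ n)
    (x : n.primeFactors → ZMod 2) :
    Sl (∏ p ∈ Bx x, p) (∏ p ∈ n.primeFactors \ Bx x, p) ↔
      ∀ q : n.primeFactors, Ev (fun q p : n.primeFactors => nr (q : ℕ) (p : ℕ)) x q = e5 q := by
  have hpr : ∀ p ∈ n.primeFactors, p.Prime ∧ p ≠ 2 ∧ p ≠ 5 := by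
    intro p hp
    refine ⟨Nat.prime_of_mem_primeFactors hp, ?_, ?_⟩
    · rintro rfl
      have := Nat.dvd_of_mem_primeFactors hp
      omega
    · rintro rfl
      exact h5 (Nat.dvd_of_mem_primeFactors hp)
  have f1 : (∏ p ∈ Bx x, p).primeFactors = Bx x :=
    Nat.primeFactors_prod fun p hp => (hpr p (Bx_sub x hp)).1
  have f2 : (∏ p ∈ n.primeFactors \ Bx x, p).primeFactors = n.primeFactors \ Bx x :=
    Nat.primeFactors_prod fun p hp => (hpr p (sdiff_subset hp)).1
  have hev0 : ∀ q : n.primeFactors, x q = 0 →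
      Ev (fun q p : n.primeFactors => nr (q : ℕ) (p : ℕ)) x q = ∑ p ∈ Bx x, nr q p := by
    intro q hq
    unfold Ev
    have e1 : ∑ p ∈ Bx x, nr q p = ∑ p ∈ n.primeFactors, if p ∈ Bx x then nr q p else 0 := by
      rw [← sum_filter]
      congr 1
      ext p
      rw [mem_filter]
      exact ⟨fun h => ⟨Bx_sub x h, h⟩, fun h => h.2⟩
    rw [e1, ← sum_coe_sort n.primeFactors]
    apply sum_congr rfl
    intro p _
    rw [hq, add_zero]
    by_cases h : x p = 1
    · rw [if_pos ((mem_Bx x p).mpr h), h, one_mul]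
    · rw [if_neg (fun g => h ((mem_Bx x p).mp g)), (z2 (x p)).resolve_right h, zero_mul]
  have hev1 : ∀ q : n.primeFactors, x q = 1 →
      Ev (fun q p : n.primeFactors => nr (q : ℕ) (p : ℕ)) x q =
        ∑ p ∈ n.primeFactors \ Bx x, nr q p := by
    intro q hq
    unfold Ev
    have e1 : ∑ p ∈ n.primeFactors \ Bx x, nr q p =
        ∑ p ∈ n.primeFactors, if p ∈ Bx x then 0 else nr q p := by
      rw [← sum_filter_add_sum_filter_not n.primeFactors (fun p => p ∈ Bx x)]
      rw [sum_congr rfl (fun p hp => if_pos (mem_filter.mp hp).2), sum_const_zero, zero_add,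
        sum_congr rfl (fun p hp => if_neg (mem_filter.mp hp).2)]
      congr 1
      ext p
      rw [mem_filter, mem_sdiff]
    rw [e1, ← sum_coe_sort n.primeFactors]
    apply sum_congr rfl
    intro p _
    rw [hq]
    by_cases h : x p = 1
    · rw [if_pos ((mem_Bx x p).mpr h), h, z2_add_self, zero_mul]
    · rw [if_neg (fun g => h ((mem_Bx x p).mp g)), (z2 (x p)).resolve_right h, zero_add, one_mul]
  have key : ∀ a b : ZMod 2, a + b = 0 ↔ b = a := by decide
  rw [Sl, f1, f2]
  constructor
  · rintro ⟨g1, g2⟩ q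
    rcases z2 (x q) with hq | hq
    · rw [hev0 q hq]
      have hqB : (q : ℕ) ∉ Bx x := by
        rw [mem_Bx, hq]
        decide
      have := g1 q (mem_sdiff.mpr ⟨q.2, hqB⟩)
      rw [cond_iff (hpr q q.2).1 (hpr q q.2).2.1 (hpr q q.2).2.2 _
        (fun p hp => ⟨(hpr p (Bx_sub x hp)).1, fun h => hqB (h ▸ hp)⟩), key] at this
      exact this
    · rw [hev1 q hq]
      have hqB : (q : ℕ) ∈ Bx x := (mem_Bx x q).mpr hq
      have := g2 q hqB
      rw [cond_iff (hpr q q.2).1 (hpr q q.2).2.1 (hpr q q.2).2.2 _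
        (fun p hp => ⟨(hpr p (sdiff_subset hp)).1, fun h => (mem_sdiff.mp hp).2 (h ▸ hqB)⟩),
        key] at this
      exact this
  · intro g
    constructor
    · intro p hp
      have hpn := (mem_sdiff.mp hp).1
      have hpB := (mem_sdiff.mp hp).2
      have hxp : x ⟨p, hpn⟩ = 0 :=
        (z2 _).resolve_right fun h => hpB ((mem_Bx x ⟨p, hpn⟩).mpr h)
      have := g ⟨p, hpn⟩
      rw [hev0 _ hxp] at this
      rw [cond_iff (hpr p hpn).1 (hpr p hpn).2.1 (hpr p hpn).2.2 _
        (fun r hr => ⟨(hpr r (Bx_sub x hr)).1, fun h => hpB (h ▸ hr)⟩), key]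
      exact this
    · intro p hp
      have hpn := Bx_sub x hp
      have hxp : x ⟨p, hpn⟩ = 1 := (mem_Bx x ⟨p, hpn⟩).mp hp
      have := g ⟨p, hpn⟩
      rw [hev1 _ hxp] at this
      rw [cond_iff (hpr p hpn).1 (hpr p hpn).2.1 (hpr p hpn).2.2 _
        (fun r hr => ⟨(hpr r (sdiff_subset hr)).1, fun h => (mem_sdiff.mp hr).2 (h ▸ hp)⟩), key]
      exact this

theorem Sl_comm (b c : ℕ) : Sl b c ↔ Sl c b := ⟨fun h => ⟨h.2, h.1⟩, fun h => ⟨h.2, h.1⟩⟩

theorem t7 : S_T7 := by
  intro n hn h4 h5' h3
  have h0 : 0 < n := by omega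
  have h5 : ¬ 5 ∣ n := by omega
  have hodd : n % 2 = 1 := by omega
  have hpr : ∀ p ∈ n.primeFactors, Po p := by
    intro p hp
    refine ⟨Nat.prime_of_mem_primeFactors hp, ?_⟩
    rintro rfl
    have := Nat.dvd_of_mem_primeFactors hp
    omega
  obtain ⟨p0, hp0, hp0n⟩ := Nat.exists_prime_and_dvd (show n ≠ 1 by omega)
  have : Nonempty n.primeFactors := ⟨⟨p0, Nat.mem_primeFactors.mpr ⟨hp0, hp0n, h0.ne'⟩⟩⟩
  rw [Qc_iff hn h4]
  -- the sum of the right side
  have he : ∑ q : n.primeFactors, e5 q = 0 := by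
    rw [sum_coe_sort n.primeFactors e5]
    have h1 : ∏ p ∈ n.primeFactors, jacobiSym (-5) p = 1 := by
      have e1 : jacobiSym (-5) n = ∏ p ∈ n.primeFactors, jacobiSym (-5) p := by
        have key : ∀ s : Finset ℕ, (∀ p ∈ s, p ≠ 0) →
            jacobiSym (-5) (∏ p ∈ s, p) = ∏ p ∈ s, jacobiSym (-5) p := by
          intro s
          induction s using Finset.induction_on with
          | empty => simp
          | insert p s hp ih =>
            intro hs
            rw [prod_insert hp, prod_insert hp]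
            have h1 : p ≠ 0 := hs p (mem_insert_self _ _)
            have h2 : ∏ p ∈ s, p ≠ 0 := by
              rw [prod_ne_zero_iff]
              intro q hq
              exact hs q (mem_insert_of_mem hq)
            rw [jacobiSym.mul_right' _ h1 h2, ih (fun q hq => hs q (mem_insert_of_mem hq))]
        conv_lhs => rw [← Nat.prod_primeFactors_of_squarefree hn]
        exact key _ fun p hp => (Nat.prime_of_mem_primeFactors hp).ne_zero
      rw [← e1, jacobiSym.neg _ (Nat.odd_iff.mpr hodd), ZMod.χ₄_nat_three_mod_four h4]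
      have e2 : jacobiSym (5 : ℤ) n = jacobiSym n 5 :=
        jacobiSym.quadratic_reciprocity_one_mod_four (a := 5) (b := n) (by norm_num)
          (Nat.odd_iff.mpr hodd)
      rw [e2]
      have e3 : jacobiSym (n : ℤ) 5 = -1 := by
        rcases h5' with h | h
        · have : jacobiSym (n : ℤ) 5 = jacobiSym 2 5 := by
            apply jacobiSym.mod_left'
            omega
          rw [this]
          decide +kernel
        · have : jacobiSym (n : ℤ) 5 = jacobiSym 3 5 := by
            apply jacobiSym.mod_left'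
            omega
          rw [this]
          decide +kernel
      rw [e3]
      norm_num
    have h2 : ∀ s : Finset ℕ, (∀ p ∈ s, jacobiSym (-5) p = 1 ∨ jacobiSym (-5) p = -1) →
        ∏ p ∈ s, jacobiSym (-5) p = if ∑ p ∈ s, e5 p = 0 then 1 else -1 := by
      intro s
      induction s using Finset.induction_on with
      | empty => simp
      | insert p s hp ih =>
        intro hs
        rw [prod_insert hp, sum_insert hp, ih fun q hq => hs q (mem_insert_of_mem hq)]
        rcases hs p (mem_insert_self _ _) with h6 | h6 <;>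
          rcases z2 (∑ p ∈ s, e5 p) with h7 | h7 <;> rw [e5, h6, h7]
        · simp
        · simp
        · simp
        · have : (1 : ZMod 2) + 1 = 0 := by decide
          simp [this]
    have h3 := h2 n.primeFactors (by
      intro p hp
      refine (jacobiSym.trichotomy _ _).resolve_left ?_
      rw [jacobiSym.eq_zero_iff, not_and_or, not_not, not_not]
      right
      have hpp := Nat.prime_of_mem_primeFactors hp
      have : Int.gcd (-5) p = Nat.gcd 5 p := rfl
      rw [this]
      refine (Nat.coprime_primes Nat.prime_five hpp).mpr ?_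
      rintro rfl
      exact h5 (Nat.dvd_of_mem_primeFactors hp))
    rw [h1] at h3
    by_contra h8
    rw [if_neg h8] at h3
    norm_num at h3
  -- the sum of the rows
  have hu : ∑ q : n.primeFactors, uu q = 1 := by
    rw [sum_coe_sort n.primeFactors uu]
    have h6 := sum_uu n.primeFactors hpr
    rw [Nat.prod_primeFactors_of_squarefree hn, h4] at h6
    rcases z2 (∑ p ∈ n.primeFactors, uu p) with h7 | h7
    · rw [if_pos h7] at h6
      omega
    · exact h7
  have hN : ∀ x, ∑ q, Ev (fun q p : n.primeFactors => nr (q : ℕ) (p : ℕ)) x q = 0 := by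
    intro x
    unfold Ev
    have e1 : ∑ q : n.primeFactors, ∑ p : n.primeFactors, (x p + x q) * nr (q : ℕ) (p : ℕ) =
        ∑ q : n.primeFactors, ∑ p : n.primeFactors, x p * (nr (q : ℕ) (p : ℕ) + nr (p : ℕ) (q : ℕ)) := by
      have e2 : ∑ q : n.primeFactors, ∑ p : n.primeFactors, x p * nr (p : ℕ) (q : ℕ) =
          ∑ q : n.primeFactors, ∑ p : n.primeFactors, x q * nr (q : ℕ) (p : ℕ) := sum_comm
      simp only [add_mul, mul_add, sum_add_distrib]
      rw [e2]
    rw [e1, sum_comm]
    have e3 : ∀ p : n.primeFactors, ∑ q : n.primeFactors,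
        x p * (nr (q : ℕ) (p : ℕ) + nr (p : ℕ) (q : ℕ)) = 0 := by
      intro p
      rw [← mul_sum]
      have e4 : ∑ q : n.primeFactors, (nr (q : ℕ) (p : ℕ) + nr (p : ℕ) (q : ℕ)) =
          ∑ q : n.primeFactors, (uu p * uu q + if q = p then uu p else 0) := by
        apply sum_congr rfl
        intro q _
        by_cases h : q = p
        · rw [if_pos h, h, z2_add_self, Pool.Agent.N916.GB.z2_sq, z2_add_self]
        · rw [if_neg h, add_zero, add_comm,
            nr_recip (hpr p p.2) (hpr q q.2) (fun g => h (Subtype.ext g.symm))]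
      rw [e4, sum_add_distrib, ← mul_sum, hu, sum_ite_eq' univ p, if_pos (mem_univ _), mul_one,
        z2_add_self, mul_zero]
    exact sum_eq_zero fun p _ => e3 p
  rw [← la _ _ he hN]
  -- counting
  set D := n.divisors.filter fun b => Sl b (n / b) with hD
  have hDlt : (n.divisors.filter fun b => b < n / b ∧ Sl b (n / b)) = D.filter fun b => b < n / b := by
    ext b
    rw [hD, mem_filter, mem_filter, mem_filter]
    tauto
  have hsplit := card_filter_add_card_filter_not (s := D) (fun b => b < n / b)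
  have hrefl : (D.filter fun b => ¬ b < n / b).card = (D.filter fun b => b < n / b).card := by
    have hdd : ∀ b ∈ n.divisors, b * (n / b) = n ∧ n / (n / b) = b ∧ 0 < b := by
      intro b hb
      rw [Nat.mem_divisors] at hb
      have hb0 : 0 < b := Nat.pos_of_dvd_of_pos hb.1 h0
      refine ⟨Nat.mul_div_cancel' hb.1, Nat.div_div_self hb.1 h0.ne', hb0⟩
    have hne : ∀ b ∈ n.divisors, b ≠ n / b := by
      intro b hb h
      have h6 := (hdd b hb).1
      rw [← h] at h6
      have h7 := hn b ⟨1, by rw [mul_one, h6]⟩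
      rw [Nat.isUnit_iff] at h7
      rw [h7] at h6
      omega
    refine card_bij' (fun b _ => n / b) (fun b _ => n / b) ?_ ?_ ?_ ?_
    · intro b hb
      rw [mem_filter, hD, mem_filter] at hb ⊢
      obtain ⟨⟨g1, g2⟩, g3⟩ := hb
      obtain ⟨k1, k2, k3⟩ := hdd b g1
      rw [k2]
      refine ⟨⟨Nat.mem_divisors.mpr ⟨⟨b, by rw [mul_comm]; exact k1.symm⟩, h0.ne'⟩,
        (Sl_comm _ _).mp g2⟩, ?_⟩
      have := hne b g1
      omega
    · intro b hb
      rw [mem_filter, hD, mem_filter] at hb ⊢
      obtain ⟨⟨g1, g2⟩, g3⟩ := hb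
      obtain ⟨k1, k2, k3⟩ := hdd b g1
      rw [k2]
      exact ⟨⟨Nat.mem_divisors.mpr ⟨⟨b, by rw [mul_comm]; exact k1.symm⟩, h0.ne'⟩,
        (Sl_comm _ _).mp g2⟩, by omega⟩
    · intro b hb
      rw [mem_filter, hD, mem_filter] at hb
      exact (hdd b hb.1.1).2.1
    · intro b hb
      rw [mem_filter, hD, mem_filter] at hb
      exact (hdd b hb.1.1).2.1
  have hbij : D.card = (univ.filter fun x : n.primeFactors → ZMod 2 =>
      ∀ q, Ev (fun q p : n.primeFactors => nr (q : ℕ) (p : ℕ)) x q = e5 q).card := by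
    have hquot : ∀ x : n.primeFactors → ZMod 2,
        n / (∏ p ∈ Bx x, p) = ∏ p ∈ n.primeFactors \ Bx x, p := by
      intro x
      have hpos : 0 < ∏ p ∈ Bx x, p :=
        prod_pos fun p hp => (hpr p (Bx_sub x hp)).1.pos
      exact Nat.div_eq_of_eq_mul_right hpos (prod_Bx hn x).symm
    have hpf : ∀ x : n.primeFactors → ZMod 2, (∏ p ∈ Bx x, p).primeFactors = Bx x := fun x =>
      Nat.primeFactors_prod fun p hp => (hpr p (Bx_sub x hp)).1
    have hinv : ∀ b ∈ n.divisors, (∏ p ∈ Bx (fun p : n.primeFactors =>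
        if (p : ℕ) ∣ b then (1 : ZMod 2) else 0), p) = b := by
      intro b hb
      rw [Nat.mem_divisors] at hb
      have hBb : Bx (fun p : n.primeFactors => if (p : ℕ) ∣ b then (1 : ZMod 2) else 0) =
          b.primeFactors := by
        ext p
        rw [Bx, mem_filter]
        constructor
        · rintro ⟨g1, g2, g3⟩
          have g4 : p ∣ b := by
            by_contra g5
            rw [if_neg g5] at g3
            exact zero_ne_one g3
          refine Nat.mem_primeFactors.mpr ⟨(hpr p g1).1, g4, ?_⟩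
          rintro rfl
          exact hb.2 (zero_dvd_iff.mp hb.1)
        · intro g0
          obtain ⟨g1, g2, g3⟩ := Nat.mem_primeFactors.mp g0
          have g4 : p ∈ n.primeFactors := Nat.mem_primeFactors.mpr ⟨g1, g2.trans hb.1, hb.2⟩
          exact ⟨g4, g4, if_pos g2⟩
      rw [hBb]
      exact Nat.prod_primeFactors_of_squarefree (hn.squarefree_of_dvd hb.1)
    refine card_bij' (fun b _ => fun p : n.primeFactors => if (p : ℕ) ∣ b then (1 : ZMod 2) else 0)
      (fun x _ => ∏ p ∈ Bx x, p) ?_ ?_ ?_ ?_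
    · intro b hb
      rw [hD, mem_filter] at hb
      rw [mem_filter]
      refine ⟨mem_univ _, ?_⟩
      rw [← Sl_iff hodd h5, ← hquot, hinv b hb.1]
      exact hb.2
    · intro x hx
      rw [mem_filter, ← Sl_iff hodd h5, ← hquot] at hx
      rw [hD, mem_filter, Nat.mem_divisors]
      exact ⟨⟨⟨_, (prod_Bx hn x).symm⟩, h0.ne'⟩, hx.2⟩
    · intro b hb
      rw [hD, mem_filter] at hb
      exact hinv b hb.1
    · intro x hx
      funext p
      have h6 : (p : ℕ) ∣ ∏ p ∈ Bx x, p ↔ x p = 1 := by
        rw [← mem_Bx x p]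
        constructor
        · intro h
          rw [← hpf x]
          exact Nat.mem_primeFactors.mpr ⟨(hpr p p.2).1, h,
            (prod_pos fun p hp => (hpr p (Bx_sub x hp)).1.pos).ne'⟩
        · intro h
          exact dvd_prod_of_mem _ h
      by_cases h7 : x p = 1
      · rw [if_pos (h6.mpr h7), h7]
      · rw [if_neg (fun g => h7 (h6.mp g)), (z2 (x p)).resolve_right h7]
  rw [hDlt]
  have h12 : ∀ m, m = D.card → (Odd (D.filter fun b => b < n / b).card ↔ Odd (m / 2)) := by
    intro m hm
    rw [hm, ← hsplit, hrefl, ← two_mul, Nat.mul_div_cancel_left _ two_pos]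
  apply h12
  rw [hbij]
  refine congrArg Finset.card (Finset.ext fun x => ?_)
  rw [mem_filter, mem_filter]
  have huniv : ∀ F : Fintype (n.primeFactors → ZMod 2), x ∈ @Finset.univ _ F := fun F =>
    @Finset.mem_univ _ F x
  exact ⟨fun h => ⟨huniv _, h.2⟩, fun h => ⟨huniv _, h.2⟩⟩

end

end Pool.Agent.Run7.h135.P15
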