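import Pool.Agent.Run7.h135.P15.T5
import Pool.Agent.Run7.h135.P15.T7
import Pool.Agent.Run7.h238.P.T4

/-!
# `X_0(15)`: the parity of the number of vectors (`S_R`)
-/

set_option autoImplicit false

namespace Pool.Agent.Run7.h135.P15

open Pool.Agent.N969.P15

theorem r : S_R := r_of t2 Run7.h238.P.t_T4a (t5 Run7.h238.P.t_T4a Run7.h238.P.t_T4b) t7

end Pool.Agent.Run7.h135.P15
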