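import Pool.Agent.Run7.h135.P15.T2

/-!
# `X_0(15)`: the parity of the number of represented reduced forms (`S_T5`)
-/

set_option autoImplicit false

namespace Pool.Agent.Run7.h135.P15

open Finset Pool.Agent.N969.P15 Run7.h238.P

/-- the involution -/
def sg (q : ℤ × ℤ × ℤ) : ℤ × ℤ × ℤ := (q.1, -q.2.1, q.2.2)

theorem PN_neg (a h c : ℤ) : (PN a (-h) c).ncard = (PN a h c).ncard := by
  have : PN a (-h) c = (fun p : V3 × V3 => (p.1, -p.2)) '' PN a h c := by
    ext p
    constructor
    · rintro ⟨h1, h2, h3⟩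
      refine ⟨(p.1, -p.2), ⟨h1, ?_, ?_⟩, by simp⟩
      · simp only
        rw [nn_neg_right, h2, neg_neg]
      · simp only
        rw [nn_neg_neg, h3]
    · rintro ⟨p', ⟨h1, h2, h3⟩, rfl⟩
      refine ⟨h1, ?_, ?_⟩
      · simp only
        rw [nn_neg_right, h2]
      · simp only
        rw [nn_neg_neg, h3]
  rw [this]
  apply Set.ncard_image_of_injective
  rintro ⟨x, y⟩ ⟨x', y'⟩ h
  simpa using h

/-- the ambiguous form of a factorization -/
def am (b c : ℤ) : ℤ × ℤ × ℤ :=
  if 3 * b < c then (b, b, (b + c) / 4) else ((b + c) / 4, (c - b) / 2, (b + c) / 4)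

theorem am_spec {n : ℕ} (hn : ∀ a : ℤ, (n : ℤ) ≠ 3 * a ^ 2) (h4 : n % 4 = 3) {b c : ℕ}
    (hbc : b * c = n) (hlt : b < c) :
    Rd n (am b c).1 (am b c).2.1 (am b c).2.2 ∧
    (|(am b c).2.1| = (am b c).1 ∨ (am b c).1 = (am b c).2.2) ∧
    (∃ r s : ℤ, (am b c).1 * r ^ 2 + (am b c).2.1 * r * s + (am b c).2.2 * s ^ 2 = b) ∧
    (∃ r s : ℤ, (am b c).1 * r ^ 2 + (am b c).2.1 * r * s + (am b c).2.2 * s ^ 2 = c) ∧
    (if (am b c).2.1 = (am b c).1 then (am b c).1.toNat else
      (2 * (am b c).1 - (am b c).2.1).toNat) = b := by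
  have hb0 : 0 < b := by
    rcases Nat.eq_zero_or_pos b with rfl | h
    · rw [zero_mul] at hbc
      omega
    · exact h
  have hbc' : (b : ℤ) * c = n := by exact_mod_cast hbc
  have hd : ∃ k : ℤ, (b : ℤ) + c = 4 * k := by
    have h1 : (b % 4) * (c % 4) % 4 = 3 := by rw [← Nat.mul_mod, hbc, h4]
    have h2 : b % 4 < 4 := Nat.mod_lt _ (by norm_num)
    have h3 : c % 4 < 4 := Nat.mod_lt _ (by norm_num)
    have h5 : (b % 4 = 1 ∧ c % 4 = 3) ∨ (b % 4 = 3 ∧ c % 4 = 1) := by
      generalize b % 4 = x at *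
      generalize c % 4 = y at *
      interval_cases x <;> interval_cases y <;> simp_all
    refine ⟨((b + c) / 4 : ℕ), ?_⟩
    omega
  obtain ⟨k, hk⟩ := hd
  have hk4 : ((b : ℤ) + c) / 4 = k := by omega
  unfold am
  by_cases h : 3 * (b : ℤ) < c
  · rw [if_pos h]
    simp only
    rw [hk4, if_pos trivial]
    refine ⟨⟨by omega, by rw [abs_of_nonneg (by omega)], by omega, ?_, fun _ => by omega⟩,
      Or.inl (by rw [abs_of_nonneg (by omega)]), ⟨1, 0, by ring⟩, ⟨-1, 2, ?_⟩, ?_⟩
    · linear_combination hbc' - (b : ℤ) * hk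
    · linear_combination (-1 : ℤ) * hk
    · simp
  · rw [if_neg h]
    simp only
    rw [hk4]
    obtain ⟨m, hm⟩ : ∃ m : ℤ, (c : ℤ) - b = 2 * m := ⟨2 * k - b, by linarith⟩
    have hm2 : ((c : ℤ) - b) / 2 = m := by omega
    rw [hm2]
    have h3 : (c : ℤ) ≠ 3 * b := by
      intro h5
      apply hn b
      rw [← hbc', h5]
      ring
    have hmk : m ≠ k := by omega
    rw [if_neg hmk]
    refine ⟨⟨by omega, by rw [abs_of_nonneg (by omega)]; omega, le_refl _, ?_, fun _ => by omega⟩,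
      Or.inr trivial, ⟨1, -1, by linarith⟩, ⟨1, 1, by linarith⟩, by omega⟩
    have e1 : 2 * k + m = c := by linarith
    have e2 : 2 * k - m = b := by linarith
    rw [← hbc', ← e1, ← e2]
    ring

theorem am_inv {n : ℕ} (hn : ∀ a : ℤ, (n : ℤ) ≠ 3 * a ^ 2) (hodd : n % 2 = 1) {q : ℤ × ℤ × ℤ}
    (hq : Rd n q.1 q.2.1 q.2.2) (hf : |q.2.1| = q.1 ∨ q.1 = q.2.2) :
    ∃ b c : ℕ, b * c = n ∧ b < c ∧ am b c = q := by
  obtain ⟨a, h, c⟩ := q
  simp only at hq hf
  obtain ⟨h1, h2, h3, h4, h5⟩ := hq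
  have hh := h5 hf
  rw [abs_of_nonneg hh] at h2 hf
  by_cases ha : h = a
  · subst ha
    have hne : h ≠ c := by
      rintro rfl
      apply hn h
      rw [← h4]
      ring
    refine ⟨h.toNat, (4 * c - h).toNat, ?_, by omega, ?_⟩
    · zify
      rw [Int.toNat_of_nonneg (by omega), Int.toNat_of_nonneg (by omega)]
      linear_combination h4
    · rw [Int.toNat_of_nonneg (by omega), Int.toNat_of_nonneg (by omega)]
      unfold am
      rw [if_pos (by omega)]
      have : (h + (4 * c - h)) / 4 = c := by omega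
      rw [this]
  · have hac : a = c := by
      rcases hf with h6 | h6
      · exact absurd h6 ha
      · exact h6
    subst hac
    have hpos : 0 < h := by
      rcases eq_or_lt_of_le hh with h6 | h6
      · exfalso
        rw [← h6] at h4
        have : (n : ℤ) = 2 * (2 * a * a) := by linear_combination -h4
        omega
      · exact h6
    refine ⟨(2 * a - h).toNat, (2 * a + h).toNat, ?_, by omega, ?_⟩
    · zify
      rw [Int.toNat_of_nonneg (by omega), Int.toNat_of_nonneg (by omega)]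
      linear_combination h4
    · rw [Int.toNat_of_nonneg (by omega), Int.toNat_of_nonneg (by omega)]
      unfold am
      rw [if_neg (by omega)]
      have e1 : (2 * a - h + (2 * a + h)) / 4 = a := by omega
      have e2 : (2 * a + h - (2 * a - h)) / 2 = h := by omega
      rw [e1, e2]

theorem t5 (h4a : S_T4a) (h4b : S_T4b) : S_T5 := by
  classical
  intro n hn h4 h5 h3
  have h0 : 0 < n := by omega
  have hodd : n % 2 = 1 := by omega
  have hn3 : ∀ a : ℤ, (n : ℤ) ≠ 3 * a ^ 2 := by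
    intro a ha
    have h1 : ((a.natAbs * a.natAbs : ℕ) : ℤ) ∣ (n : ℤ) := by
      rw [ha]
      push_cast
      rw [abs_mul_abs_self]
      exact ⟨3, by ring⟩
    have h2 := hn a.natAbs (by exact_mod_cast h1)
    rw [Nat.isUnit_iff] at h2
    have h5 : a ^ 2 = 1 := by
      rw [← sq_abs, Int.abs_eq_natAbs, h2]
      norm_num
    rw [h5] at ha
    omega
  set G := (Red n).filter fun q => (PN q.1 q.2.1 q.2.2).ncard ≠ 0 with hG
  let fx : ℤ × ℤ × ℤ → Prop := fun q => |q.2.1| = q.1 ∨ q.1 = q.2.2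
  have hsplit : (G.filter fx).card + (G.filter fun q => ¬ fx q).card = G.card :=
    card_filter_add_card_filter_not _
  have hoddh : ∀ q ∈ G, q.2.1 ≠ 0 := by
    intro q hq h
    rw [hG, mem_filter, mem_Red] at hq
    have := hq.1.dd
    rw [h] at this
    have : (n : ℤ) = 2 * (2 * q.1 * q.2.2) := by linear_combination -this
    omega
  have hmG : ∀ q ∈ G, ¬ fx q → sg q ∈ G ∧ ¬ fx (sg q) := by
    intro q hq hf
    rw [hG, mem_filter, mem_Red] at hq ⊢
    have hf' : ¬ fx (sg q) := by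
      simp only [fx, sg, abs_neg] at hf ⊢
      exact hf
    refine ⟨⟨⟨hq.1.a0, ?_, hq.1.ac, ?_, fun h => absurd h hf'⟩, ?_⟩, hf'⟩
    · simp only [sg, abs_neg]
      exact hq.1.ha
    · simp only [sg]
      rw [neg_sq]
      exact hq.1.dd
    · simp only [sg]
      rw [PN_neg]
      exact hq.2
  have heven : Even (G.filter fun q => ¬ fx q).card := by
    have : ∑ q ∈ G.filter (fun q => ¬ fx q), (1 : ZMod 2) = 0 := by
      refine sum_involution (fun q _ => sg q) ?_ ?_ ?_ ?_
      · intro q _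
        decide
      · intro q hq _ h
        rw [mem_filter] at hq
        have h1 := congrArg (fun q : ℤ × ℤ × ℤ => q.2.1) h
        simp only [sg] at h1
        exact hoddh q hq.1 (by omega)
      · intro q hq
        rw [mem_filter] at hq ⊢
        exact hmG q hq.1 hq.2
      · intro q _
        simp [sg]
    rw [sum_const, nsmul_eq_mul, mul_one] at this
    exact (ZMod.natCast_eq_zero_iff_even).mp this
  have hiff : ∀ b c : ℕ, b * c = n → b < c →
      ((PN (am b c).1 (am b c).2.1 (am b c).2.2).ncard ≠ 0 ↔ Sl b c) := by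
    intro b c hbc hlt
    obtain ⟨s1, s2, s3, s4, s5⟩ := am_spec hn3 h4 hbc hlt
    have k1 := h4a n _ _ _ hn hodd h5 s1.a0 s1.dd
    have k2 := h4b n b c _ _ _ hn hodd h5 s1.a0 s1.dd hbc s3 s4
    rw [← k2]
    constructor
    · exact fun h => k1.resolve_left h
    · intro h
      rw [h]
      positivity
  have hcard : (G.filter fx).card = (n.divisors.filter fun b => b < n / b ∧ Sl b (n / b)).card := by
    symm
    refine card_bij' (fun b _ => am b (n / b : ℕ))
      (fun q _ => if q.2.1 = q.1 then q.1.toNat else (2 * q.1 - q.2.1).toNat) ?_ ?_ ?_ ?_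
    · intro b hb
      rw [mem_filter, Nat.mem_divisors] at hb
      obtain ⟨⟨h6, h7⟩, h8, h9⟩ := hb
      have hbc : b * (n / b) = n := Nat.mul_div_cancel' h6
      obtain ⟨s1, s2, s3, s4, s5⟩ := am_spec hn3 h4 hbc h8
      rw [mem_filter, hG, mem_filter, mem_Red]
      exact ⟨⟨s1, (hiff b _ hbc h8).mpr h9⟩, s2⟩
    · intro q hq
      rw [mem_filter, hG, mem_filter, mem_Red] at hq
      obtain ⟨⟨h6, h7⟩, h8⟩ := hq
      obtain ⟨b, c, hbc, hlt, rfl⟩ := am_inv hn3 hodd h6 h8
      obtain ⟨s1, s2, s3, s4, s5⟩ := am_spec hn3 h4 hbc hlt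
      rw [s5, mem_filter, Nat.mem_divisors]
      have hb0 : 0 < b := by
        rcases Nat.eq_zero_or_pos b with rfl | h
        · rw [zero_mul] at hbc
          omega
        · exact h
      have hc : n / b = c := by rw [← hbc, Nat.mul_div_cancel_left _ hb0]
      rw [hc]
      exact ⟨⟨⟨c, hbc.symm⟩, h0.ne'⟩, hlt, (hiff b c hbc hlt).mp h7⟩
    · intro b hb
      rw [mem_filter, Nat.mem_divisors] at hb
      obtain ⟨⟨h6, h7⟩, h8, h9⟩ := hb
      have hbc : b * (n / b) = n := Nat.mul_div_cancel' h6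
      exact (am_spec hn3 h4 hbc h8).2.2.2.2
    · intro q hq
      rw [mem_filter, hG, mem_filter, mem_Red] at hq
      obtain ⟨⟨h6, h7⟩, h8⟩ := hq
      obtain ⟨b, c, hbc, hlt, rfl⟩ := am_inv hn3 hodd h6 h8
      obtain ⟨s1, s2, s3, s4, s5⟩ := am_spec hn3 h4 hbc hlt
      rw [s5]
      have hb0 : 0 < b := by
        rcases Nat.eq_zero_or_pos b with rfl | h
        · rw [zero_mul] at hbc
          omega
        · exact h
      have hc : n / b = c := by rw [← hbc, Nat.mul_div_cancel_left _ hb0]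
      rw [hc]
  rw [← hcard, ← hsplit, Nat.odd_add]
  simp only [heven, iff_true]

end Pool.Agent.Run7.h135.P15
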