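import Pool.Agent.N969.P15.Defs

/-!
# `X_0(15)`: the bilinear identities and the diagonal identity from the local statements
-/

set_option autoImplicit false

namespace Pool.Agent.Run7.h135.P15

open Finset Pool.Agent.N969.P15

theorem cls_facts {n : ℕ} (hn : Cls0 n) : n % 4 = 3 ∧ n % 3 = 2 ∧ (n % 5 = 3 ∨ n % 5 = 2) ∧ 22 < n := by
  rcases hn.2 with h | h <;> omega

theorem tw_odd {n1 D : ℕ} (h : ¬ 2 ∣ D) : tw n1 D = 0 := by
  rw [tw, Nat.factorization_eq_zero_of_not_dvd h]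
  simp

theorem loc3_odd {n1 D : ℕ} (h : ¬ 2 ∣ D) : loc3 n1 D = 0 := by
  rw [loc3, lrest, tw_odd h]
  simp

/-- `D` as a natural number -/
theorem bil_aux (hCP : S_CP3) (hR : S_REL22) {n : ℕ} (hn : Cls0 n) {c : ℕ} (hc : c = 1 ∨ c = 2) :
    144 * AA n (c * n) = 3 * rr (c ^ 2 * n : ℕ) * rr n + cc (c ^ 2 * n : ℕ) * cc n := by
  obtain ⟨h4, h3, h5, hbig⟩ := cls_facts hn
  have hc3 : (c ^ 2 * n) % 3 = 2 := by rcases hc with rfl | rfl <;> omega
  have hc5 : ¬ 5 ∣ c ^ 2 * n := by rcases hc with rfl | rfl <;> omega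
  have hc0 : 0 < c := by rcases hc with rfl | rfl <;> omega
  set r3 : ℤ := if c = 1 then 1 else 2 with hr3
  set r5 : ℤ := ((c * n : ℕ) : ℤ) % 5 with hr5
  have g1 : r3 = 1 ∨ r3 = 2 := by
    rw [hr3]
    split_ifs <;> simp
  have g2 : 0 < r5 ∧ r5 < 5 := by
    rw [hr5]
    rcases hc with rfl | rfl <;> omega
  have g3 : (5 : ℤ) ∣ r5 ^ 2 - (n : ℤ) * ((c ^ 2 * n : ℕ) : ℤ) := by
    have e1 : (5 : ℤ) ∣ r5 - ((c * n : ℕ) : ℤ) := by
      rw [hr5]
      exact (Int.emod_emod_of_dvd _ (dvd_refl (5 : ℤ))) ▸ (by omega)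
    have e2 : r5 ^ 2 - (n : ℤ) * ((c ^ 2 * n : ℕ) : ℤ) =
        (r5 - ((c * n : ℕ) : ℤ)) * (r5 + ((c * n : ℕ) : ℤ)) := by push_cast; ring
    rw [e2]
    exact Dvd.dvd.mul_right e1 _
  set B : ℤ := ((c * n : ℕ) : ℤ) + 1 with hB
  have hN0 : 0 ≤ ((c * n : ℕ) : ℤ) := Int.natCast_nonneg _
  have g4 : (n : ℤ) * ((c ^ 2 * n : ℕ) : ℤ) < B ^ 2 := by
    have e : (n : ℤ) * ((c ^ 2 * n : ℕ) : ℤ) = ((c * n : ℕ) : ℤ) ^ 2 := by push_cast; ring
    rw [e, hB]
    nlinarith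
  have g5 : 0 < B := by omega
  have h5n : ¬ 5 ∣ n := by omega
  have key := hR n (c ^ 2 * n) h3 hc3 h5n hc5 r3 r5 g1 g2.1 g2.2 g3 B g4 g5
  -- the range of b
  have hb : ∀ b ∈ (Ioo (-B) B).filter (fun b : ℤ => b % 3 = r3 ∧ b % 5 = r5),
      -((c * n : ℕ) : ℤ) < b ∧ b < ((c * n : ℕ) : ℤ) ∧ ¬ (3 : ℤ) ∣ b := by
    intro b hb
    rw [mem_filter, mem_Ioo] at hb
    obtain ⟨⟨b1, b2⟩, b3, b4⟩ := hb
    have k1 : b ≠ ((c * n : ℕ) : ℤ) := by
      intro h
      rw [hr3] at b3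
      rcases hc with rfl | rfl
      · simp only [if_true] at b3
        omega
      · rw [if_neg (by norm_num)] at b3
        omega
    have k2 : b ≠ -((c * n : ℕ) : ℤ) := by
      intro h
      rw [hr5] at b4
      rcases hc with rfl | rfl <;> omega
    refine ⟨by omega, by omega, ?_⟩
    rcases g1 with g | g <;> omega
  have hsum : ∑ b ∈ (Ioo (-B) B).filter (fun b : ℤ => b % 3 = r3 ∧ b % 5 = r5),
      ((cp n b (c ^ 2 * n : ℕ) : ℤ) + cp3 n b (c ^ 2 * n : ℕ)) =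
      12 * AA n (c * n) := by
    have s1 : ∀ b ∈ (Ioo (-B) B).filter (fun b : ℤ => b % 3 = r3 ∧ b % 5 = r5),
        ((cp n b (c ^ 2 * n : ℕ) : ℤ) + cp3 n b (c ^ 2 * n : ℕ)) =
        12 * loc3 n ((((c * n : ℕ) : ℤ) ^ 2 - b ^ 2).toNat) := by
      intro b hb'
      obtain ⟨b1, b2, b3⟩ := hb b hb'
      have hpos : 0 < ((c * n : ℕ) : ℤ) ^ 2 - b ^ 2 := by nlinarith
      apply hCP n (c ^ 2 * n) b _ hn.1 h4 h3 hc3 h5n b3
      · omega
      · rw [Int.toNat_of_nonneg hpos.le]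
        push_cast
        ring
    rw [sum_congr rfl s1, ← mul_sum]
    congr 1
    rw [AA]
    -- restrict to the right parity
    rw [← sum_filter_add_sum_filter_not _ (fun b : ℤ => (2 : ℤ) ∣ ((c * n : ℕ) : ℤ) - b)]
    have s2 : ∑ b ∈ ((Ioo (-B) B).filter (fun b : ℤ => b % 3 = r3 ∧ b % 5 = r5)).filter
        (fun b : ℤ => ¬ (2 : ℤ) ∣ ((c * n : ℕ) : ℤ) - b),
        loc3 n ((((c * n : ℕ) : ℤ) ^ 2 - b ^ 2).toNat) = 0 := by
      apply sum_eq_zero
      intro b hb'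
      rw [mem_filter] at hb'
      obtain ⟨b1, b2, b3⟩ := hb b hb'.1
      have hpos : 0 < ((c * n : ℕ) : ℤ) ^ 2 - b ^ 2 := by nlinarith
      apply loc3_odd
      intro h
      have h' : (2 : ℤ) ∣ ((c * n : ℕ) : ℤ) ^ 2 - b ^ 2 := by
        have : ((2 : ℕ) : ℤ) ∣ (((((c * n : ℕ) : ℤ) ^ 2 - b ^ 2).toNat : ℕ) : ℤ) := by
          exact_mod_cast h
        rwa [Int.toNat_of_nonneg hpos.le] at this
      have e : ((c * n : ℕ) : ℤ) ^ 2 - b ^ 2 =
        (((c * n : ℕ) : ℤ) - b) * (((c * n : ℕ) : ℤ) - b + 2 * b) := by ring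
      rw [e] at h'
      rcases Int.prime_two.dvd_or_dvd h' with h' | h'
      · exact hb'.2 h'
      · exact hb'.2 (by omega)
    rw [s2, add_zero]
    refine sum_bij' (fun b _ => ((((c * n : ℕ) : ℤ) - b) / 2).toNat)
      (fun T _ => ((c * n : ℕ) : ℤ) - 2 * T) ?_ ?_ ?_ ?_ ?_
    · intro b hb'
      rw [mem_filter] at hb'
      obtain ⟨b1, b2, b3⟩ := hb b hb'.1
      obtain ⟨hb1, k, hk⟩ := hb'
      rw [mem_filter, mem_Ioo, hr3, hr5] at hb1
      obtain ⟨-, b4, b5⟩ := hb1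
      rw [hk, Int.mul_ediv_cancel_left _ (by norm_num : (2 : ℤ) ≠ 0)]
      have hk0 : 0 < k := by omega
      obtain ⟨l, rfl⟩ := Int.eq_ofNat_of_zero_le hk0.le
      rw [Int.toNat_natCast, mem_filter, mem_range]
      rcases hc with rfl | rfl
      · rw [if_pos rfl] at b4
        omega
      · rw [if_neg (by norm_num)] at b4
        omega
    · intro T hT
      rw [mem_filter, mem_range] at hT
      obtain ⟨t1, t2, t3⟩ := hT
      have hT0 : 0 < T := by
        rcases Nat.eq_zero_or_pos T with rfl | h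
        · exfalso
          rcases hc with rfl | rfl <;> omega
        · exact h
      rw [mem_filter, mem_filter, mem_Ioo]
      refine ⟨⟨⟨by omega, by omega⟩, ?_, ?_⟩, ⟨T, by ring⟩⟩
      · rw [hr3]
        rcases hc with rfl | rfl
        · rw [if_pos rfl]
          omega
        · rw [if_neg (by norm_num)]
          omega
      · rw [hr5]
        rcases hc with rfl | rfl <;> omega
    · intro b hb'
      rw [mem_filter] at hb'
      obtain ⟨b1, b2, b3⟩ := hb b hb'.1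
      obtain ⟨hb1, k, hk⟩ := hb'
      rw [hk, Int.mul_ediv_cancel_left _ (by norm_num : (2 : ℤ) ≠ 0)]
      omega
    · intro T hT
      have : ((c * n : ℕ) : ℤ) - (((c * n : ℕ) : ℤ) - 2 * T) = 2 * T := by ring
      rw [this, Int.mul_ediv_cancel_left _ (by norm_num : (2 : ℤ) ≠ 0)]
      simp
    · intro b hb'
      rw [mem_filter] at hb'
      obtain ⟨b1, b2, b3⟩ := hb b hb'.1
      obtain ⟨hb1, k, hk⟩ := hb'
      rw [hk, Int.mul_ediv_cancel_left _ (by norm_num : (2 : ℤ) ≠ 0)]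
      have hk0 : 0 < k := by omega
      obtain ⟨l, rfl⟩ := Int.eq_ofNat_of_zero_le hk0.le
      rw [Int.toNat_natCast]
      congr 1
      have hl : l ≤ c * n := by omega
      have hpos : 0 < ((c * n : ℕ) : ℤ) ^ 2 - b ^ 2 := by nlinarith
      have hpos' : 0 ≤ ((c : ℤ) * n) ^ 2 - b ^ 2 := by
        have h9 := hpos
        push_cast at h9
        exact h9.le
      zify
      rw [Int.toNat_of_nonneg hpos']
      have hb6 : b = ((c * n : ℕ) : ℤ) - 2 * (l : ℤ) := by omega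
      rw [hb6]
      push_cast [hl]
      ring
  rw [hsum] at key
  linear_combination key

theorem bil1 (hCP : S_CP3) (hR : S_REL22) : S_BIL1 := by
  intro n hn
  have := bil_aux hCP hR hn (c := 1) (Or.inl rfl)
  simp only [one_mul, one_pow] at this
  rw [this]
  ring

theorem bil2 (hCP : S_CP3) (hR : S_REL22) : S_BIL2 := by
  intro n hn
  have := bil_aux hCP hR hn (c := 2) (Or.inr rfl)
  have e : ((2 ^ 2 * n : ℕ) : ℤ) = 4 * n := by push_cast; ring
  rw [e] at this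
  exact this

/-- the sum over the cusps equals the divisor sum -/
theorem WU_WT (h1 : S_C1B) {n : ℕ} (hn : Squarefree n) (h4 : n % 4 = 3) {N : ℕ}
    (hN : N = n ∨ N = 2 * n) : WU n N = WT n N := by
  rw [WU, WT]
  apply sum_congr rfl
  intro T hT
  rw [mem_filter, mem_range] at hT
  rw [WW]
  apply sum_congr rfl
  intro a ha
  apply sum_congr rfl
  intro a' ha'
  rw [mem_filter, Nat.mem_divisors] at ha ha'
  apply h1 n hn h4 N hN a a' (T / a') ((N - T) / a)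
  rw [Nat.mul_div_cancel' ha.1.1, Nat.mul_div_cancel' ha'.1.1]
  omega

theorem WT1 (h2 : S_C2A) {n : ℕ} (hn : Cls0 n) : WT n n = -AA n n := by
  obtain ⟨h4, h3, h5, hbig⟩ := cls_facts hn
  rw [WT, AA, ← sum_neg_distrib]
  apply sum_congr rfl
  intro T hT
  rw [mem_filter, mem_range] at hT
  obtain ⟨t1, t2, t3⟩ := hT
  have hT0 : 0 < T := by
    rcases Nat.eq_zero_or_pos T with rfl | h
    · exfalso; omega
    · exact h
  exact h2 n hn T hT0 t1 t2 t3

theorem WT2 (h2 : S_C2B) {n : ℕ} (hn : Cls0 n) :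
    WT n (2 * n) = -(AA n (2 * n) + ep2 n * AA n n) := by
  obtain ⟨h4, h3, h5, hbig⟩ := cls_facts hn
  have e1 : WT n (2 * n) = ∑ T ∈ (range (2 * n)).filter (fun T => 5 ∣ T ∧ 3 ∣ 2 * n - T),
      -(loc3 n (4 * (2 * n - T) * T) +
        if 2 ∣ T then ep2 n * loc3 n ((2 * n - T) * T) else 0) := by
    rw [WT]
    apply sum_congr rfl
    intro T hT
    rw [mem_filter, mem_range] at hT
    obtain ⟨t1, t2, t3⟩ := hT
    have hT0 : 0 < T := by
      rcases Nat.eq_zero_or_pos T with rfl | h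
      · exfalso; omega
      · exact h
    exact h2 n hn T hT0 t1 t2 t3
  rw [e1, sum_neg_distrib, sum_add_distrib, ← sum_filter, ← mul_sum]
  congr 2
  congr 1
  rw [AA]
  refine sum_bij' (fun T _ => T / 2) (fun T _ => 2 * T) ?_ ?_ ?_ ?_ ?_
  · intro T hT
    rw [mem_filter, mem_filter, mem_range] at hT
    rw [mem_filter, mem_range]
    omega
  · intro T hT
    rw [mem_filter, mem_range] at hT
    rw [mem_filter, mem_filter, mem_range]
    omega
  · intro T hT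
    rw [mem_filter, mem_filter, mem_range] at hT
    omega
  · intro T hT
    omega
  · intro T hT
    rw [mem_filter, mem_filter, mem_range] at hT
    obtain ⟨-, S, rfl⟩ := hT
    rw [Nat.mul_div_cancel_left _ two_pos]
    congr 1
    have : 2 * n - 2 * S = 2 * (n - S) := by omega
    rw [this]
    ring

theorem diag (h1 : S_C1A) (h2 : S_C1B) (h3 : S_C2A) (h4 : S_C2B) (h5 : S_BIL1) (h6 : S_BIL2)
    (h7 : S_HE) : S_DIAG := by
  intro n hn
  obtain ⟨g4, g3, g5, hbig⟩ := cls_facts hn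
  have k1 := h5 n hn
  have k2 := h6 n hn
  obtain ⟨k3, k4⟩ := h7 n g4 g3
  have c1 : cc n = rr n - 2 * rr0 n := by
    rw [cc, if_neg (by omega)]
  have c2 : cc (4 * n) = rr (4 * n) - 2 * rr0 (4 * n) := by
    rw [cc, if_neg (by omega)]
  have c3 : cc (4 * n) = -(1 + ep2 n) * cc n := by
    rw [c2, c1, k3, k4]; ring
  rw [h1 n hn, WU_WT h2 hn.1 g4 (Or.inr rfl), WU_WT h2 hn.1 g4 (Or.inl rfl), WT1 h3 hn, WT2 h4 hn]
  rw [c3, k3] at k2
  have : 4 * (18 * (2 * (-(AA n (2 * n) + ep2 n * AA n n) - 3 * -AA n n))) = 4 * cc n ^ 2 := by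
    linear_combination (3 - ep2 n) * k1 - k2
  linarith

end Pool.Agent.Run7.h135.P15
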