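import Pool.Agent.Run7.h238.P.Cnt

/-!
# `X_0(15)`: the parity of the number of vectors (`S_R`): definitions and statements of the parts

`N` is the even ternary lattice of determinant ten (inner product `nn`), its dual scaled by ten is
the lattice of the vectors `V3` with the inner product `ip`. The kernel in `N` of a vector `v` of
squarefree norm `n ≡ 3 mod 4` is a binary form of discriminant `-n`.
-/

set_option autoImplicit false

namespace Pool.Agent.Run7.h135.P15

open Finset Pool.Agent.N969.P15 Run7.h238.P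

/-- the pairs of vectors of `N` with Gram matrix `(2 a, h; h, 2 c)` -/
def PN (a h c : ℤ) : Set (V3 × V3) :=
  {q | nn q.1 q.1 = 2 * a ∧ nn q.1 q.2 = h ∧ nn q.2 q.2 = 2 * c}

/-- the reduced forms `a x² + h x y + c y²` of discriminant `-n` -/
noncomputable def Red (n : ℕ) : Finset (ℤ × ℤ × ℤ) :=
  (Icc 1 (n : ℤ) ×ˢ Icc (-(n : ℤ)) n ×ˢ Icc 1 (n : ℤ)).filter fun q =>
    |q.2.1| ≤ q.1 ∧ q.1 ≤ q.2.2 ∧ 4 * q.1 * q.2.2 - q.2.1 ^ 2 = n ∧
      ((|q.2.1| = q.1 ∨ q.1 = q.2.2) → 0 ≤ q.2.1)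

/-- T2: every vector has exactly two oriented bases of its kernel with reduced Gram matrix -/
def S_T2 : Prop := ∀ n : ℕ, Squarefree n → n % 4 = 3 → 3 < n →
  2 * rr n = ∑ q ∈ Red n, ((PN q.1 q.2.1 q.2.2).ncard : ℤ)

/-- T3: the number of representations of a binary form whose first coefficient is prime to `n` -/
def S_T3 : Prop := ∀ (n : ℕ) (a h c : ℤ), Squarefree n → n % 2 = 1 → 0 < a →
  4 * a * c - h ^ 2 = n → IsCoprime a (n : ℤ) →
  (PN a h c).ncard = 6 * ((range n).filter fun y : ℕ => (n : ℤ) ∣ a * (y : ℤ) ^ 2 + 5).card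

/-- the local conditions for the ambiguous form of the factorization `n = b c` -/
def Sl (b c : ℕ) : Prop := (∀ p ∈ c.primeFactors, jacobiSym (-5 * (b : ℤ)) p = 1) ∧
  ∀ p ∈ b.primeFactors, jacobiSym (-5 * (c : ℤ)) p = 1

/-- T4a: the number of representations of a binary form by `N` -/
def S_T4a : Prop := ∀ (n : ℕ) (a h c : ℤ), Squarefree n → n % 2 = 1 → ¬ 5 ∣ n → 0 < a →
  4 * a * c - h ^ 2 = n →
  (PN a h c).ncard = 0 ∨ (PN a h c).ncard = 6 * 2 ^ n.primeFactors.card

/-- T4b: the same with the condition, for a form which represents `b` and `c'`, `b c' = n` -/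
def S_T4b : Prop := ∀ (n b c' : ℕ) (a h c : ℤ), Squarefree n → n % 2 = 1 → ¬ 5 ∣ n → 0 < a →
  4 * a * c - h ^ 2 = n → b * c' = n → (∃ r s : ℤ, a * r ^ 2 + h * r * s + c * s ^ 2 = b) →
  (∃ r s : ℤ, a * r ^ 2 + h * r * s + c * s ^ 2 = c') →
  ((PN a h c).ncard = 6 * 2 ^ n.primeFactors.card ↔ Sl b c')

open Classical in
/-- T5: the parity of the number of represented reduced forms -/
def S_T5 : Prop := ∀ n : ℕ, Squarefree n → n % 4 = 3 → ¬ 5 ∣ n → 3 < n →
  (Odd ((Red n).filter fun q => (PN q.1 q.2.1 q.2.2).ncard ≠ 0).card ↔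
    Odd (n.divisors.filter fun b => b < n / b ∧ Sl b (n / b)).card)

open Classical in
/-- T7: the number of solutions of the ambiguous conditions is odd exactly under `Qc` -/
def S_T7 : Prop := ∀ n : ℕ, Squarefree n → n % 4 = 3 → (n % 5 = 2 ∨ n % 5 = 3) → 3 < n →
  (Odd (n.divisors.filter fun b => b < n / b ∧ Sl b (n / b)).card ↔ Qc n)

theorem r_of (h2 : S_T2) (h4 : S_T4a) (h5 : S_T5) (h7 : S_T7) : S_R := by
  classical
  intro n hn h4' h5' h3
  have hn5 : ¬ 5 ∣ n := by omega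
  set G := (Red n).filter fun q => (PN q.1 q.2.1 q.2.2).ncard ≠ 0 with hG
  have hsum : ∑ q ∈ Red n, ((PN q.1 q.2.1 q.2.2).ncard : ℤ) =
      G.card * (6 * 2 ^ n.primeFactors.card) := by
    have e1 : ∑ q ∈ Red n, ((PN q.1 q.2.1 q.2.2).ncard : ℤ) =
        ∑ q ∈ G, ((PN q.1 q.2.1 q.2.2).ncard : ℤ) := by
      rw [hG, sum_filter]
      apply sum_congr rfl
      intro q _
      split_ifs with h
      · rfl
      · push Not at h
        rw [h]
        rfl
    rw [e1]
    have e2 : ∀ q ∈ G, ((PN q.1 q.2.1 q.2.2).ncard : ℤ) = 6 * 2 ^ n.primeFactors.card := by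
      intro q hq
      rw [hG, mem_filter] at hq
      obtain ⟨q1, q2⟩ := hq
      rw [Red, mem_filter, mem_product, mem_product, mem_Icc] at q1
      obtain ⟨⟨⟨q3, q4⟩, q5⟩, q6, q7, q8, q9⟩ := q1
      have := (h4 n q.1 q.2.1 q.2.2 hn (by omega) hn5 (by omega) q8).resolve_left q2
      rw [this]
      push_cast
      ring
    rw [sum_congr rfl e2, sum_const, nsmul_eq_mul]
  refine ⟨3 * G.card, ?_, ?_⟩
  · have := h2 n hn h4' h3
    rw [hsum] at this
    linarith
  · rw [Int.odd_mul]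
    have h3' : Odd (3 : ℤ) := by decide
    rw [← h7 n hn h4' h5' h3, ← h5 n hn h4' hn5 h3]
    simp only [h3', true_and]
    rw [Int.odd_coe_nat]

end Pool.Agent.Run7.h135.P15
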