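import Pool.Agent.Run7.h135.P15.RStm
import Pool.Agent.Run7.h238.P.Bij

/-!
# `X_0(15)`: vectors and reduced bases of their kernels (`S_T2`)
-/

set_option autoImplicit false

namespace Pool.Agent.Run7.h135.P15

open Finset Pool.Agent.N969.P15 Run7.h238.P

/-- the conditions of reduced forms -/
structure Rd (n a h c : ℤ) : Prop where
  a0 : 0 < a
  ha : |h| ≤ a
  ac : a ≤ c
  dd : 4 * a * c - h ^ 2 = n
  sg : (|h| = a ∨ a = c) → 0 ≤ h

theorem mem_Red {n : ℕ} {q : ℤ × ℤ × ℤ} : q ∈ Red n ↔ Rd n q.1 q.2.1 q.2.2 := by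
  obtain ⟨a, h, c⟩ := q
  rw [Red, mem_filter, mem_product, mem_product, mem_Icc, mem_Icc, mem_Icc]
  simp only
  constructor
  · rintro ⟨⟨⟨h1, -⟩, -⟩, h2, h3, h4, h5⟩
    exact ⟨by omega, h2, h3, h4, h5⟩
  · rintro ⟨h1, h2, h3, h4, h5⟩
    have hh : h ^ 2 ≤ a ^ 2 := by
      rw [← sq_abs h]
      exact pow_le_pow_left₀ (abs_nonneg h) h2 2
    have h6 : a ^ 2 ≤ a * c := by nlinarith
    have h7 : 3 * (a * c) ≤ n := by nlinarith
    have h8 : a ≤ a * c := by nlinarith
    have h9 : c ≤ a * c := by nlinarith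
    have h10 := abs_le.mp h2
    refine ⟨⟨⟨by omega, by linarith⟩, ⟨by linarith, by linarith⟩, ⟨by linarith, by linarith⟩⟩,
      h2, h3, h4, h5⟩

theorem pr_ge {P R : ℤ} (hP : 0 ≤ P) (hR : 0 ≤ R) (h : ¬ (P = 0 ∧ R = 0)) :
    1 ≤ P ^ 2 - P * R + R ^ 2 := by
  rcases le_total P R with h1 | h1
  · have : 1 ≤ R := by
      by_contra h2
      exact h ⟨by omega, by omega⟩
    nlinarith
  · have : 1 ≤ P := by
      by_contra h2
      exact h ⟨by omega, by omega⟩
    nlinarith

theorem form_lb {a h c p r : ℤ} :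
    a * |p| ^ 2 - |h| * (|p| * |r|) + c * |r| ^ 2 ≤ a * p ^ 2 + h * p * r + c * r ^ 2 := by
  have h1 : -(|h| * (|p| * |r|)) ≤ h * p * r := by
    rw [← abs_mul, ← abs_mul, mul_assoc]
    exact neg_abs_le _
  rw [sq_abs, sq_abs]
  linarith

theorem min_val {a h c p r : ℤ} (a0 : 0 < a) (ha : |h| ≤ a) (ac : a ≤ c)
    (h0 : ¬ (p = 0 ∧ r = 0)) : a ≤ a * p ^ 2 + h * p * r + c * r ^ 2 := by
  refine le_trans ?_ (form_lb (a := a) (h := h) (c := c) (p := p) (r := r))
  have h1 := pr_ge (abs_nonneg p) (abs_nonneg r) (by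
    rintro ⟨h1, h2⟩
    exact h0 ⟨abs_eq_zero.mp h1, abs_eq_zero.mp h2⟩)
  have h2 : 0 ≤ |p| * |r| := by positivity
  have h3 : 0 ≤ |r| ^ 2 := by positivity
  nlinarith [mul_le_mul_of_nonneg_right ha h2, mul_le_mul_of_nonneg_right ac h3]

theorem red_uniq {n : ℤ} (h3 : ∀ a : ℤ, n ≠ 3 * a ^ 2) (hodd : n % 2 = 1) {a h c a' h' c' : ℤ}
    (H : Rd n a h c) (H' : Rd n a' h' c') {p q r s : ℤ} (hdet : p * s - q * r = 1)
    (e1 : a' = a * p ^ 2 + h * p * r + c * r ^ 2)
    (e2 : h' = 2 * a * p * q + h * (p * s + q * r) + 2 * c * r * s)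
    (e3 : c' = a * q ^ 2 + h * q * s + c * s ^ 2) :
    (p = 1 ∧ q = 0 ∧ r = 0 ∧ s = 1) ∨ (p = -1 ∧ q = 0 ∧ r = 0 ∧ s = -1) := by
  have hho : h % 2 = 1 := by
    by_contra hh
    have h2 : (2 : ℤ) ∣ h := by omega
    obtain ⟨k, rfl⟩ := h2
    have := H.dd
    have h4 : n = 2 * (2 * a * c - 2 * k ^ 2) := by linear_combination -this
    omega
  have hpr : ¬ (p = 0 ∧ r = 0) := by
    rintro ⟨rfl, rfl⟩
    simp at hdet
  have hsr : ¬ (s = 0 ∧ -r = 0) := by
    rintro ⟨h1, h2⟩
    have h4 : r = 0 := by omega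
    rw [h1, h4] at hdet
    simp at hdet
  have g1 : a ≤ a' := by
    rw [e1]
    exact min_val H.a0 H.ha H.ac hpr
  have g2 : a' ≤ a := by
    have e4 : a = a' * s ^ 2 + h' * s * (-r) + c' * (-r) ^ 2 := by
      rw [e1, e2, e3]
      linear_combination (-(a * (p * s - q * r + 1))) * hdet
    rw [e4]
    exact min_val H'.a0 H'.ha H'.ac hsr
  have g3 : a' = a := le_antisymm g2 g1
  have hab := abs_le.mp H.ha
  have hab' := abs_le.mp H'.ha
  have ha0 := H.a0
  by_cases hr : r = 0
  · rw [hr] at hdet e2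
    have hps : p * s = 1 := by linarith
    have hq : q = 0 := by
      have e5 : h' = 2 * a * (p * q) + h := by
        rw [e2]
        linear_combination h * hps
      have b1 : -a ≤ a * (p * q) := by nlinarith
      have b2 : a * (p * q) ≤ a := by nlinarith
      have b3 : -1 ≤ p * q := by nlinarith
      have b4 : p * q ≤ 1 := by nlinarith
      have hpq : p * q = 0 := by
        have : p * q = -1 ∨ p * q = 0 ∨ p * q = 1 := by omega
        rcases this with h5 | h5 | h5
        · exfalso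
          rw [h5] at e5
          have h6 : h' = -a := by linarith
          have h7 : |h'| = a' := by rw [h6, abs_neg, abs_of_pos ha0, g3]
          have := H'.sg (Or.inl h7)
          omega
        · exact h5
        · exfalso
          rw [h5] at e5
          have h6 : h = -a := by linarith
          have h7 : |h| = a := by rw [h6, abs_neg, abs_of_pos ha0]
          have := H.sg (Or.inl h7)
          omega
      rcases mul_eq_zero.mp hpq with h5 | h5
      · rw [h5] at hps
        simp at hps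
      · exact h5
    rcases Int.mul_eq_one_iff_eq_one_or_neg_one.mp hps with ⟨h5, h6⟩ | ⟨h5, h6⟩
    · exact Or.inl ⟨h5, hq, hr, h6⟩
    · exact Or.inr ⟨h5, hq, hr, h6⟩
  · exfalso
    by_cases hp : p = 0
    · rw [hp] at hdet e1 e2
      have hqr : q * r = -1 := by linarith
      have hr2 : r ^ 2 = 1 := by
        rcases Int.eq_one_or_neg_one_of_mul_eq_neg_one (show r * q = -1 by linarith) with h5 | h5 <;>
          rw [h5] <;> norm_num
      have hac : a = c := by
        rw [hr2] at e1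
        linarith
      have hh0 := H.sg (Or.inr hac)
      have e5 : h' = -h + 2 * a * (r * s) := by
        rw [e2, hac]
        linear_combination h * hqr
      have t1 : (r * s) = 0 ∨ r * s = 1 := by
        have b1 : 2 * a * (r * s) ≤ 2 * a := by linarith
        have b2 : -a ≤ 2 * a * (r * s) := by linarith
        have b3 : r * s ≤ 1 := by nlinarith
        have b4 : -1 < r * s := by nlinarith
        omega
      rcases t1 with t1 | t1
      · have hs : s = 0 := (mul_eq_zero.mp t1).resolve_left hr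
        rw [hs] at e3
        have hq2 : q ^ 2 = 1 := by
          rcases Int.eq_one_or_neg_one_of_mul_eq_neg_one hqr with h5 | h5 <;>
            rw [h5] <;> norm_num
        have : a' = c' := by
          rw [e3, hq2, g3]
          ring
        have := H'.sg (Or.inr this)
        rw [e5, t1] at this
        omega
      · rw [t1] at e5
        have h6 : h = a := by linarith
        apply h3 a
        rw [← H.dd, ← hac, h6]
        ring
    · have P1 : 1 ≤ |p| := Int.one_le_abs hp
      have R1 : 1 ≤ |r| := Int.one_le_abs hr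
      have lb := form_lb (a := a) (h := h) (c := c) (p := p) (r := r)
      rw [← e1, g3] at lb
      have k1 : |p| ^ 2 + |r| ^ 2 - |p| * |r| - 1 ≥ 0 := by
        have := pr_ge (abs_nonneg p) (abs_nonneg r) (fun g => hp (abs_eq_zero.mp g.1))
        linarith
      have hh := abs_nonneg h
      have k2 : 0 ≤ |h| * (|p| ^ 2 + |r| ^ 2 - |p| * |r| - 1) := mul_nonneg hh k1
      have k3 : 0 ≤ (a - |h|) * (|p| ^ 2 - 1) := mul_nonneg (by linarith [H.ha]) (by nlinarith)
      have k4 : 0 ≤ (c - |h|) * (|r| ^ 2 - 1) := mul_nonneg (by linarith [H.ha, H.ac]) (by nlinarith)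
      have k5 : a + c - |h| ≤ a := by nlinarith
      have k6 : |h| = a := le_antisymm H.ha (by linarith [H.ac])
      have k7 : c = a := le_antisymm (by linarith) H.ac
      apply h3 a
      rw [← H.dd, k7, ← sq_abs h, k6]
      ring

/-! ### bases of the kernel -/

/-- reduced pairs -/
def Rp (n : ℤ) (p : V3 × V3) : Prop := ∃ a h c : ℤ, Rd n a h c ∧ p ∈ PN a h c

theorem cr_cr {v x c : V3} (h0 : dt v x = 0) (h1 : dt c x = 1) : cr x (cr v c) = v := by
  simp only [dt] at h0 h1
  refine ext3 ?_ ?_ ?_ <;> simp only [cr0, cr1, cr2]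
  · linear_combination (v 0) * h1 - (c 0) * h0
  · linear_combination (v 1) * h1 - (c 1) * h0
  · linear_combination (v 2) * h1 - (c 2) * h0

theorem exists_pair (v : V3) : ∃ x y : V3, cr x y = v := by
  -- a nonzero vector orthogonal to `v`
  obtain ⟨u, hu, hu0⟩ : ∃ u : V3, u ≠ 0 ∧ dt v u = 0 := by
    by_cases h : v 0 = 0 ∧ v 1 = 0
    · refine ⟨![1, 0, 0], ?_, ?_⟩
      · intro h1
        have := congrFun h1 0
        simp at this
      · simp only [dt]
        simp [h.1]
    · refine ⟨![v 1, -v 0, 0], ?_, ?_⟩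
      · intro h1
        have h2 := congrFun h1 0
        have h3 := congrFun h1 1
        simp at h2 h3
        exact h ⟨h3, h2⟩
      · simp only [dt, Matrix.cons_val_zero, Matrix.cons_val_one, Matrix.cons_val]
        ring
  obtain ⟨e, he, g, c, hg, hc⟩ := prim_dec u hu
  refine ⟨g, cr v c, cr_cr ?_ hc⟩
  have : e * dt v g = 0 := by
    rw [← hu0, hg]
    simp only [dt, Pi.smul_apply, smul_eq_mul]
    ring
  exact (mul_eq_zero.mp this).resolve_left he.ne'

theorem cr_shift (x y : V3) (t : ℤ) : cr x (y + t • x) = cr x y := by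
  refine ext3 ?_ ?_ ?_ <;> simp only [cr0, cr1, cr2, Pi.add_apply, Pi.smul_apply, smul_eq_mul] <;>
    ring

theorem cr_turn (x y : V3) : cr y (-x) = cr x y := by
  refine ext3 ?_ ?_ ?_ <;> simp only [cr0, cr1, cr2, Pi.neg_apply] <;> ring

theorem nn_pos {x : V3} (hx : x ≠ 0) : 0 < nn x x := by
  rw [nn_self]
  by_contra h
  apply hx
  have k0 := sq_nonneg (x 0)
  have k1 := sq_nonneg (x 1)
  have k2 := sq_nonneg (x 2)
  have k3 := sq_nonneg (x 0 + x 1 + x 2)
  have h0 : x 0 = 0 := pow_eq_zero_iff two_ne_zero |>.mp (by linarith)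
  have h1 : x 1 = 0 := pow_eq_zero_iff two_ne_zero |>.mp (by linarith)
  have h2 : x 2 = 0 := pow_eq_zero_iff two_ne_zero |>.mp (by linarith)
  exact ext3 h0 h1 h2

theorem nn_neg_right (x y : V3) : nn x (-y) = -nn x y := by
  unfold nn
  simp only [Pi.neg_apply]
  ring

theorem nn_neg_neg (x y : V3) : nn (-x) (-y) = nn x y := by
  unfold nn
  simp only [Pi.neg_apply]
  ring

theorem exists_rp {n : ℤ} {v : V3} (hn : 0 < n) (hv : ip v v = n) :
    ∃ p : V3 × V3, cr p.1 p.2 = v ∧ Rp n p := by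
  have hv0 : v ≠ 0 := by
    rintro rfl
    simp [ip] at hv
    omega
  classical
  have hex : {m : ℕ | ∃ x y : V3, cr x y = v ∧ nn x x = m}.Nonempty := by
    obtain ⟨x, y, h⟩ := exists_pair v
    have hx : x ≠ 0 := by
      rintro rfl
      apply hv0
      rw [← h]
      refine ext3 ?_ ?_ ?_ <;> simp [cr0, cr1, cr2]
    exact ⟨(nn x x).toNat, x, y, h, (Int.toNat_of_nonneg (nn_pos hx).le).symm⟩
  obtain ⟨m, ⟨x, y, hxy, hm⟩, hmm⟩ := WellFounded.has_min (Nat.lt_wfRel.wf) _ hex
  have hmin : ∀ x' y' : V3, cr x' y' = v → nn x x ≤ nn x' x' := by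
    intro x' y' h
    have hx : x' ≠ 0 := by
      rintro rfl
      apply hv0
      rw [← h]
      refine ext3 ?_ ?_ ?_ <;> simp [cr0, cr1, cr2]
    have h1 : ¬ (nn x' x').toNat < m :=
      hmm _ ⟨x', y', h, (Int.toNat_of_nonneg (nn_pos hx).le).symm⟩
    have h2 := nn_pos hx
    omega
  have hx : x ≠ 0 := by
    rintro rfl
    apply hv0
    rw [← hxy]
    refine ext3 ?_ ?_ ?_ <;> simp [cr0, cr1, cr2]
  obtain ⟨a, ha⟩ := even_nn x
  have ha0 : 0 < a := by
    have := nn_pos hx
    omega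
  -- shift
  obtain ⟨t, h', hh', b1, b2⟩ : ∃ t h' : ℤ, h' = nn x y + 2 * a * t ∧ -a < h' ∧ h' ≤ a := by
    refine ⟨-((nn x y + a - 1) / (2 * a)), (nn x y + a - 1) % (2 * a) - (a - 1), ?_, ?_, ?_⟩
    · have := Int.emod_add_mul_ediv (nn x y + a - 1) (2 * a)
      linear_combination this
    · have := Int.emod_nonneg (nn x y + a - 1) (by omega : 2 * a ≠ 0)
      omega
    · have := Int.emod_lt_of_pos (nn x y + a - 1) (by omega : 0 < 2 * a)
      omega
  set y' := y + t • x with hy'
  have hc1 : cr x y' = v := by rw [hy', cr_shift, hxy]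
  have hc2 : nn x y' = h' := by
    rw [hy', nn_add, hh', ha]
    ring
  obtain ⟨c, hc⟩ := even_nn y'
  have hd : 4 * a * c - h' ^ 2 = n := by
    have := ip_cr x y' x y'
    rw [hc1, hv, ha, hc, hc2, nn_comm y' x, hc2] at this
    linear_combination -this
  have hac : a ≤ c := by
    have := hmin y' (-x) (by rw [cr_turn, hc1])
    omega
  by_cases hs : a = c ∧ h' < 0
  · refine ⟨(y', -x), by rw [cr_turn, hc1], c, -h', a, ⟨by omega, ?_, by omega, ?_, ?_⟩, ?_⟩
    · rw [abs_neg, abs_le]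
      omega
    · linear_combination hd
    · intro _
      omega
    · refine ⟨hc, ?_, ?_⟩
      · simp only
        rw [nn_neg_right, nn_comm, hc2]
      · simp only
        rw [nn_neg_neg, ha]
  · refine ⟨(x, y'), hc1, a, h', c, ⟨ha0, ?_, hac, hd, ?_⟩, ha, hc2, hc⟩
    · rw [abs_le]
      omega
    · rintro (h1 | h1)
      · rw [abs_eq ha0.le] at h1
        omega
      · by_contra h2
        exact hs ⟨h1, by omega⟩

theorem rp_uniq {n : ℤ} (h3 : ∀ a : ℤ, n ≠ 3 * a ^ 2) (hodd : n % 2 = 1) {v c0 : V3}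
    (hv : dt v c0 = 1) {p p' : V3 × V3} (hp : cr p.1 p.2 = v) (hp' : cr p'.1 p'.2 = v)
    (H : Rp n p) (H' : Rp n p') : p' = p ∨ p' = (-p.1, -p.2) := by
  obtain ⟨x, y⟩ := p
  obtain ⟨x', y'⟩ := p'
  simp only at hp hp'
  have htp : tp x y c0 = 1 := by rw [tp, hp, hv]
  have z1 : dt x' (cr x y) = 0 := by
    rw [hp, ← hp']
    simp only [dt, cr0, cr1, cr2]
    ring
  have z2 : dt y' (cr x y) = 0 := by
    rw [hp, ← hp']
    simp only [dt, cr0, cr1, cr2]
    ring
  obtain ⟨p, q, r, s, ex, ey⟩ : ∃ p q r s : ℤ, x' = p • x + r • y ∧ y' = q • x + s • y := by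
    refine ⟨dt x' (cr y c0), dt y' (cr y c0), dt x' (cr c0 x), dt y' (cr c0 x), ?_, ?_⟩
    · have := bas_exp htp x'
      rw [z1, zero_smul, add_zero] at this
      exact this
    · have := bas_exp htp y'
      rw [z2, zero_smul, add_zero] at this
      exact this
  have hdet : p * s - q * r = 1 := by
    have e1 : dt (cr x' y') c0 = (p * s - q * r) * dt (cr x y) c0 := by
      rw [ex, ey]
      simp only [dt, cr0, cr1, cr2, Pi.add_apply, Pi.smul_apply, smul_eq_mul]
      ring
    rw [hp', hp, hv] at e1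
    linarith
  obtain ⟨a, h, c, R, g1, g2, g3⟩ := H
  obtain ⟨a', h', c', R', g1', g2', g3'⟩ := H'
  simp only at g1 g2 g3 g1' g2' g3'
  have f1 : a' = a * p ^ 2 + h * p * r + c * r ^ 2 := by
    have : nn x' x' = p ^ 2 * nn x x + 2 * (p * r) * nn x y + r ^ 2 * nn y y := by
      rw [ex]
      simp only [nn, Pi.add_apply, Pi.smul_apply, smul_eq_mul]
      ring
    rw [g1', g1, g2, g3] at this
    linarith
  have f2 : h' = 2 * a * p * q + h * (p * s + q * r) + 2 * c * r * s := by
    have : nn x' y' = p * q * nn x x + (p * s + q * r) * nn x y + r * s * nn y y := by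
      rw [ex, ey]
      simp only [nn, Pi.add_apply, Pi.smul_apply, smul_eq_mul]
      ring
    rw [g2', g1, g2, g3] at this
    linarith
  have f3 : c' = a * q ^ 2 + h * q * s + c * s ^ 2 := by
    have : nn y' y' = q ^ 2 * nn x x + 2 * (q * s) * nn x y + s ^ 2 * nn y y := by
      rw [ey]
      simp only [nn, Pi.add_apply, Pi.smul_apply, smul_eq_mul]
      ring
    rw [g3', g1, g2, g3] at this
    linarith
  rcases red_uniq h3 hodd R R' hdet f1 f2 f3 with ⟨rfl, rfl, rfl, rfl⟩ | ⟨rfl, rfl, rfl, rfl⟩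
  · left
    rw [ex, ey]
    simp
  · right
    rw [ex, ey]
    simp

theorem neg_rp {n : ℤ} {p : V3 × V3} (H : Rp n p) : Rp n (-p.1, -p.2) := by
  obtain ⟨a, h, c, R, g1, g2, g3⟩ := H
  exact ⟨a, h, c, R, by rw [nn_neg_neg, g1], by rw [nn_neg_neg, g2], by rw [nn_neg_neg, g3]⟩

theorem cr_neg_neg (x y : V3) : cr (-x) (-y) = cr x y := by
  refine ext3 ?_ ?_ ?_ <;> simp only [cr0, cr1, cr2, Pi.neg_apply] <;> ring

/-- squarefree norm: primitive vectors -/
theorem prim_of {n : ℕ} (hn : Squarefree n) (h0 : 0 < n) {v : V3} (hv : ip v v = n) :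
    ∃ c : V3, dt v c = 1 := by
  have hv0 : v ≠ 0 := by
    rintro rfl
    simp [ip] at hv
    omega
  obtain ⟨e, he, g, c, hg, hc⟩ := prim_dec v hv0
  have h1 : (n : ℤ) = e * e * ip g g := by
    rw [← hv, hg]
    simp only [ip, Pi.smul_apply, smul_eq_mul]
    ring
  have h2 : e = 1 := by
    lift e to ℕ using he.le
    have h3 : ((e * e : ℕ) : ℤ) ∣ (n : ℤ) := by
      rw [h1]
      push_cast
      exact Dvd.intro _ rfl
    have h4 := hn e (by exact_mod_cast h3)
    rw [Nat.isUnit_iff] at h4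
    rw [h4]
    rfl
  refine ⟨c, ?_⟩
  rw [hg, h2, one_smul]
  rw [← hc]
  simp only [dt]
  ring

theorem t2 : S_T2 := by
  classical
  intro n hn h4 h3
  have h0 : 0 < n := by omega
  have hodd : (n : ℤ) % 2 = 1 := by omega
  have hn3 : ∀ a : ℤ, (n : ℤ) ≠ 3 * a ^ 2 := by
    intro a ha
    have h1 : ((a.natAbs * a.natAbs : ℕ) : ℤ) ∣ (n : ℤ) := by
      rw [ha]
      push_cast
      rw [abs_mul_abs_self]
      exact ⟨3, by ring⟩
    have h2 := hn a.natAbs (by exact_mod_cast h1)
    rw [Nat.isUnit_iff] at h2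
    have h5 : a ^ 2 = 1 := by
      rw [← sq_abs, Int.abs_eq_natAbs, h2]
      norm_num
    rw [h5] at ha
    omega
  have hch : ∀ v : V3, ∃ p : V3 × V3, v ∈ vec n → cr p.1 p.2 = v ∧ Rp n p := by
    intro v
    by_cases hv : v ∈ vec n
    · obtain ⟨p, hp⟩ := exists_rp (by exact_mod_cast h0) ((mem_vec n v).mp hv)
      exact ⟨p, fun _ => hp⟩
    · exact ⟨0, fun h => absurd h hv⟩
  choose g hg using hch
  have hne : ∀ v ∈ vec n, g v ≠ (-(g v).1, -(g v).2) := by
    intro v hv h
    have h1 : (g v).1 = -(g v).1 := congrArg Prod.fst h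
    have h2 : (g v).1 = 0 := by
      refine ext3 ?_ ?_ ?_
      · have := congrFun h1 0
        simp only [Pi.neg_apply, Pi.zero_apply] at this ⊢
        omega
      · have := congrFun h1 1
        simp only [Pi.neg_apply, Pi.zero_apply] at this ⊢
        omega
      · have := congrFun h1 2
        simp only [Pi.neg_apply, Pi.zero_apply] at this ⊢
        omega
    obtain ⟨a, h, c, R, g1, -⟩ := (hg v hv).2
    rw [h2] at g1
    have := R.a0
    simp [nn] at g1
    omega
  set A := (vec n).image g with hA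
  set B := (vec n).image fun v => (-(g v).1, -(g v).2) with hB
  have hcA : A.card = (vec n).card := by
    rw [hA]
    apply card_image_of_injOn
    intro v hv w hw h
    rw [← (hg v hv).1, ← (hg w hw).1, h]
  have hcB : B.card = (vec n).card := by
    rw [hB]
    apply card_image_of_injOn
    intro v hv w hw h
    rw [← (hg v hv).1, ← (hg w hw).1, ← cr_neg_neg (g v).1, ← cr_neg_neg (g w).1]
    have e1 := congrArg Prod.fst h
    have e2 := congrArg Prod.snd h
    simp only at e1 e2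
    rw [e1, e2]
  have hdis : Disjoint A B := by
    rw [Finset.disjoint_left]
    intro p hp hp'
    rw [hA, mem_image] at hp
    rw [hB, mem_image] at hp'
    obtain ⟨v, hv, rfl⟩ := hp
    obtain ⟨w, hw, e⟩ := hp'
    have e1 : cr (g v).1 (g v).2 = cr (g w).1 (g w).2 := by
      rw [← e, cr_neg_neg]
    rw [(hg v hv).1, (hg w hw).1] at e1
    subst e1
    exact hne v hv e.symm
  have hmem : ∀ p : V3 × V3, p ∈ A ∪ B ↔ Rp n p := by
    intro p
    rw [mem_union, hA, hB, mem_image, mem_image]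
    constructor
    · rintro (⟨v, hv, rfl⟩ | ⟨v, hv, rfl⟩)
      · exact (hg v hv).2
      · exact neg_rp (hg v hv).2
    · intro H
      have hv : cr p.1 p.2 ∈ vec n := by
        rw [mem_vec, ip_cr]
        obtain ⟨a, h, c, R, g1, g2, g3⟩ := H
        rw [g1, g3, g2, nn_comm p.2, g2, ← R.dd]
        ring
      obtain ⟨c0, hc0⟩ := prim_of hn h0 ((mem_vec n _).mp hv)
      rcases rp_uniq hn3 hodd hc0 (hg _ hv).1 rfl (hg _ hv).2 H with h | h
      · left
        exact ⟨_, hv, h.symm⟩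
      · right
        exact ⟨_, hv, h.symm⟩
  -- fibres
  let key : V3 × V3 → ℤ × ℤ × ℤ := fun p => (nn p.1 p.1 / 2, nn p.1 p.2, nn p.2 p.2 / 2)
  have hkey : ∀ p ∈ A ∪ B, key p ∈ Red n := by
    intro p hp
    rw [hmem] at hp
    obtain ⟨a, h, c, R, g1, g2, g3⟩ := hp
    rw [mem_Red]
    simp only [key]
    rw [g1, g2, g3, Int.mul_ediv_cancel_left _ two_ne_zero, Int.mul_ediv_cancel_left _ two_ne_zero]
    exact R
  have hfib : ∀ q ∈ Red n, (PN q.1 q.2.1 q.2.2) =
      (((A ∪ B).filter fun p => key p = q : Finset _) : Set (V3 × V3)) := by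
    intro q hq
    ext p
    rw [mem_coe, mem_filter, hmem]
    constructor
    · intro hp
      refine ⟨⟨q.1, q.2.1, q.2.2, mem_Red.mp hq, hp⟩, ?_⟩
      simp only [key]
      rw [hp.1, hp.2.1, hp.2.2, Int.mul_ediv_cancel_left _ two_ne_zero,
        Int.mul_ediv_cancel_left _ two_ne_zero]
    · rintro ⟨⟨a, h, c, R, g1, g2, g3⟩, hk⟩
      simp only [key] at hk
      rw [g1, g2, g3, Int.mul_ediv_cancel_left _ two_ne_zero,
        Int.mul_ediv_cancel_left _ two_ne_zero] at hk
      rw [← hk]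
      exact ⟨g1, g2, g3⟩
  have hsum : (A ∪ B).card = ∑ q ∈ Red n, (PN q.1 q.2.1 q.2.2).ncard := by
    rw [card_eq_sum_card_fiberwise hkey]
    apply sum_congr rfl
    intro q hq
    rw [hfib q hq, Set.ncard_coe_finset]
  rw [card_union_of_disjoint hdis, hcA, hcB] at hsum
  rw [rr]
  have : ((∑ q ∈ Red n, (PN q.1 q.2.1 q.2.2).ncard : ℕ) : ℤ) =
      ∑ q ∈ Red n, ((PN q.1 q.2.1 q.2.2).ncard : ℤ) := by push_cast; rfl
  rw [← this, ← hsum]
  push_cast
  ring

end Pool.Agent.Run7.h135.P15
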